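import Mathlib

/-! The classes of groups in the statement. -/

namespace Pool.Agent.Lib.MP_1ae3da_al.CT

/-- There is a subnormal series from `A` to `B` each of whose factors has cyclic Sylow
`p`-subgroups, or is an alternating group, or is `PSL2(K)` for a finite field `K`. -/
def Chain (p : ℕ) {G : Type} [Group G] (A B : Subgroup G) : Prop :=
  ∃ (n : ℕ) (s : ℕ → Subgroup G), s 0 = A ∧ s n = B ∧
    ∀ i < n, s i ≤ s (i + 1) ∧ ∃ (H : Type) (_ : Group H) (φ : s (i + 1) →* H),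
      Function.Surjective φ ∧ φ.ker = (s i).subgroupOf (s (i + 1)) ∧
      ((∀ Q : Sylow p H, IsCyclic (Q : Subgroup H)) ∨
        (∃ m : ℕ, Nonempty (H ≃* alternatingGroup (Fin m))) ∨
        ∃ (K : Type) (_ : Field K) (_ : Finite K),
          Nonempty (H ≃* Matrix.ProjectiveSpecialLinearGroup (Fin 2) K))

/-- `X` is a quotient of `SL_m(K)` by a central subgroup, `K` finite, `m ≥ 2` and
`2 v_p(m!) < v_p(|K| - 1)`. -/
def TypeA (p : ℕ) (X : Type) [Group X] : Prop :=
  ∃ (K : Type) (_ : Field K) (_ : Finite K) (m : ℕ)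
    (π : Matrix.SpecialLinearGroup (Fin m) K →* X), 2 ≤ m ∧
    2 * padicValNat p m.factorial < padicValNat p (Nat.card K - 1) ∧
    Function.Surjective π ∧ π.ker ≤ Subgroup.center _

/-- `X` is perfect and `X = U N U`, where `U` is a Sylow `r`-subgroup for a prime `r ≠ p`,
`T = N ⊓ N_X(U)` is abelian and normal in `N`, `N / T` has a series as in `Chain`, and
`2 v_p |N : T| < v_p |T : C_T(u)|` for all `u ≠ 1` in `U`. -/
def Split (p : ℕ) (X : Type) [Group X] : Prop :=
  commutator X = ⊤ ∧ ∃ (r : ℕ) (U : Sylow r X) (N T : Subgroup X), r.Prime ∧ p ≠ r ∧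
    (∀ x, ∃ u ∈ U, ∃ n ∈ N, ∃ v ∈ U, x = u * n * v) ∧
    T = N ⊓ Subgroup.normalizer (U : Set X) ∧ (∀ x ∈ T, ∀ y ∈ T, x * y = y * x) ∧
    N ≤ Subgroup.normalizer (T : Set X) ∧ Chain p T N ∧
    ∀ u ∈ U, u ≠ 1 → 2 * padicValNat p (T.relIndex N) <
      padicValNat p ((Subgroup.centralizer {u}).relIndex T)

end Pool.Agent.Lib.MP_1ae3da_al.CT
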