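import Pool.Agent.Lib.MP_1ae3da_al.C.ALf2
import Pool.Agent.Lib.MP_1ae3da_al.C.AFin

/-! Semilinear automorphisms of a group algebra that come from a group of group automorphisms. -/

namespace Pool.Agent.Lib.MP_1ae3da_al.CT

open Submodule NSV

variable {F A X S : Type} [Field F] [Ring A] [Algebra F A] [Group X] [Group S] {π : X →* S}
  {u : S → A}

/-- the semilinear automorphisms that permute the standard basis by a member of `W`. -/
noncomputable def Gw (GG : Subgroup (RingAut F)) (W : Subgroup (MulAut X)) :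
    Subgroup (RingAut (MonoidAlgebra F X)) where
  carrier := {γ | γ ∈ SG GG (MonoidAlgebra F X) ∧ ∃ δ ∈ W, ∀ x, γ (gu F X x) = gu F X (δ x)}
  one_mem' := ⟨one_mem _, 1, one_mem _, fun _ => rfl⟩
  mul_mem' := by
    rintro a b ⟨h1, δ, h3, h2⟩ ⟨k1, ε, k3, k2⟩
    exact ⟨mul_mem h1 k1, δ * ε, mul_mem h3 k3, fun x => (congrArg a (k2 x)).trans (h2 _)⟩
  inv_mem' := by
    rintro a ⟨h1, δ, h3, h2⟩
    refine ⟨inv_mem h1, δ⁻¹, inv_mem h3, fun x => ?_⟩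
    change a.symm _ = _
    rw [RingEquiv.symm_apply_eq, h2, MulAut.apply_inv_self]

theorem gw_mono {GG : Subgroup (RingAut F)} {W W' : Subgroup (MulAut X)} (h : W ≤ W') :
    Gw GG W ≤ Gw GG W' := fun _ ⟨h1, δ, h2, h3⟩ => ⟨h1, δ, h h2, h3⟩

theorem gw_stb {GG : Subgroup (RingAut F)} {W : Subgroup (MulAut X)} {H : Subgroup X}
    (h : ∀ δ ∈ W, ∀ x, δ x ∈ H ↔ x ∈ H) : Gw GG W ≤ Stb (Hm F (gu F X) H) :=
  fun _ ⟨⟨_, _, h1⟩, δ, h2, h3⟩ => (ga_stb h1 h3 H).2 (h δ h2)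

theorem gw_ad {GG : Subgroup (RingAut F)} {W : Subgroup (MulAut X)} {x : X}
    (h : MulAut.conj x ∈ W) : ∃ a ∈ Gw GG W, IsAd F (gu F X) x a := by
  obtain ⟨a, h1, h2⟩ := ga_aut (1 : RingAut F) (MulAut.conj x)
  refine ⟨a, ⟨⟨1, one_mem _, h1⟩, _, h, h2⟩, h1, (ga_stb h1 h2 ⊤).2 fun _ => Iff.rfl,
    fun b _ => ?_⟩
  induction b using lf_ind with
  | h0 => simp
  | ha b b' k k' =>
    rw [mul_add, map_add, add_mul, k (lf_span _), k' (lf_span _)]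
  | hs d y =>
    rw [h1, h2, mul_smul_comm, smul_mul_assoc, lf_mul, lf_mul]
    simp

/-- a linked bijection passes from a perfect group to a quotient by a central subgroup. -/
theorem lk_lift {p : ℕ} [CharZero F] [Finite X] {GG : Subgroup (RingAut F)}
    (hX : commutator X = ⊤) (hs0 : Function.Surjective π) (hc0 : π.ker ≤ Subgroup.center X)
    (hu : TG F u) (hm : ∀ x y, u x * u y = u (x * y)) (N : Subgroup S)
    {Γ : Subgroup (RingAut A)} {W : Subgroup (MulAut X)} (hΓ : Γ ≤ SG GG A)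
    (h4 : ∀ γ ∈ Γ, ∃ a ∈ W, ∀ x, u (π (a x)) = γ (u (π x)))
    (hl : LK F (Gw GG W) (Hm F (gu F X) ⊤) (Hm F (gu F X) (N.comap π))
      (IrrP F p (Hm F (gu F X) ⊤)) (IrrP F p (Hm F (gu F X) (N.comap π)))) :
    LK F Γ (Hm F u ⊤) (Hm F u N) (IrrP F p (Hm F u ⊤)) (IrrP F p (Hm F u N)) := by
  have h1 : ∀ x y, u (π (x * y)) = u (π x) * u (π y) := fun x y => by rw [map_mul, hm]
  obtain ⟨Φ, ε, hT, hΦ, hε⟩ := lf_data (φ := fun x => u (π x)) hs0 hc0 hu h1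
    fun x => ⟨1, one_ne_zero, (one_smul _ _).symm⟩
  have him : ∀ K : Subgroup S, Φ '' Hm F (gu F X) (K.comap π) = Hm F u K := fun K => by
    ext a
    constructor
    · rintro ⟨_, ⟨c, hc, x, hx, rfl⟩, rfl⟩
      rw [map_smul, hΦ]
      exact Hm_smul hc (mem_Hm hx)
    · rintro ⟨c, hc, t, ht, rfl⟩
      obtain ⟨x, rfl⟩ := hs0 t
      exact ⟨c • gu F X x, Hm_smul hc (mem_Hm ht), by rw [map_smul, hΦ]⟩
  have hπ : ∀ x y, u x = u y → x = y := fun x y e =>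
    (hu.eq_of (one_ne_zero (α := F)) (congrArg ((1 : F) • ·) e)).1
  have hker : π.ker ≤ N.comap π := fun z hz => by
    rw [Subgroup.mem_comap, MonoidHom.mem_ker.mp hz]; exact one_mem _
  have hH : Ht Φ Γ (Gw GG W) (Hm F (gu F X) ⊤)
      (Hm F (gu F X) (N.comap π)) fun γ δ => ∃ σ ∈ GG, SL F σ γ ∧ SL F σ δ ∧ ∃ a ∈ W,
        (∀ x, δ (gu F X x) = gu F X (a x)) ∧ ∀ x, u (π (a x)) = γ (u (π x)) := by
    refine ⟨?_, ?_, ?_, ?_, ?_, ?_, ?_, ?_⟩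
    · intro γ hγ
      obtain ⟨σ, hσ, hs⟩ := hΓ hγ
      obtain ⟨a, haW, ha⟩ := h4 γ hγ
      obtain ⟨δ, hδ, hδ'⟩ := lf_aut σ a
      exact ⟨δ, σ, hσ, hs, hδ, a, haW, hδ', ha⟩
    · rintro γ - δ ⟨σ, hσ, -, hδ, a, haW, hδ', -⟩
      exact ⟨⟨σ, hσ, hδ⟩, a, haW, hδ'⟩
    · rintro γ δ ⟨σ, -, hs, hδ, a, -, hδ', ha⟩ b
      induction b using lf_ind with
      | h0 => simp
      | ha b b' k k' => simp only [map_add, k, k']
      | hs d y => rw [hδ, map_smul, map_smul, hs, hδ', hΦ, hΦ, ha]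
    · rintro γ δ δ' ⟨σ, -, hs, hδ, a, -, k1, k2⟩ ⟨σ', -, hs', hδ', a', -, k3, k4⟩
      obtain rfl := lf_sl_eq hs hs' (hu.ne 1)
      obtain rfl : a = a' := uce_aut_ext hX hc0 fun x => hπ _ _ (by rw [k2, k4])
      exact ga_ext hδ hδ' fun x => by rw [k1, k3]
    · rintro γ δ γ' δ' ⟨σ, hσ, hs, hδ, a, haW, k1, k2⟩ ⟨σ', hσ', hs', hδ', a', haW', k3, k4⟩
      refine ⟨σ * σ', mul_mem hσ hσ', fun c x => ?_, fun c x => ?_, a * a', mul_mem haW haW',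
        fun x => ?_, fun x => ?_⟩
      · change γ (γ' (c • x)) = σ (σ' c) • γ (γ' x)
        rw [hs', hs]
      · change δ (δ' (c • x)) = σ (σ' c) • δ (δ' x)
        rw [hδ', hδ]
      · change δ (δ' _) = gu F X (a (a' x))
        rw [k3, k1]
      · change u (π (a (a' x))) = γ (γ' _)
        rw [k2, k4]
    · rintro γ δ ⟨σ, hσ, hs, hδ, a, haW, k1, k2⟩
      refine ⟨σ⁻¹, inv_mem hσ, lf_sl_inv hs, lf_sl_inv hδ, a⁻¹, inv_mem haW, fun x => ?_,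
        fun x => ?_⟩
      · change δ.symm _ = _
        rw [RingEquiv.symm_apply_eq, k1, MulAut.apply_inv_self]
      · change _ = γ.symm _
        rw [RingEquiv.eq_symm_apply, ← k2, MulAut.apply_inv_self]
    · rintro γ δ ⟨σ, -, hs, hδ, -⟩ hl'
      obtain rfl : σ = 1 := lf_sl_eq hs hl' (hu.ne 1)
      exact hδ
    · rintro γ δ ⟨σ, -, hs, hδ, a, -, k1, k2⟩ _ ⟨c, hc, y, -, rfl⟩ hm' _ ⟨d, hd, x, -, rfl⟩
      have k3 : ∀ (d : F), d ≠ 0 → ∀ x, d • u (π (y * x)) = σ d • u (π (a x * y)) :=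
        fun d hd x => by
          have e := hm' _ (Hm_smul hd (mem_Hm (Subgroup.mem_top x)))
          rw [map_smul, map_smul, hΦ, hΦ, hs, ← k2, smul_mul_smul_comm, smul_mul_smul_comm,
            ← h1, ← h1, mul_comm (σ d), mul_smul, mul_smul] at e
          exact smul_right_injective A hc e
      have k4 : ∀ x, u (π (y * x)) = u (π (a x * y)) := fun x => by
        simpa using k3 1 one_ne_zero x
      have k5 : a = MulAut.conj y := uce_aut_ext hX hc0 fun x => by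
        have e := hπ _ _ (k4 x)
        rw [map_mul, map_mul] at e
        simp [e]
      have k6 : σ d = d := by
        have e := k3 d hd x
        rw [k4] at e
        exact (smul_left_injective F (hu.ne _) e).symm
      rw [hδ, k1, k6, smul_mul_smul_comm, smul_mul_smul_comm, lf_mul, lf_mul, k5, mul_comm c]
      simp
  have key := lk_transport (p := p) (GG := GG) hT hH hΓ
    (fun b _ => lf_span _) (fun b hb => lf_tg.span_mul hb (span_Hm_mono hker hε))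
    (mem_Hm (u := gu F X) (one_mem _)) (span_mono ?_ hε) hl
  · rw [him N, ← Subgroup.comap_top π, him ⊤] at key
    exact key
  · rintro _ ⟨c, hc, z, hz, rfl⟩
    refine ⟨Hm_smul hc (mem_Hm (hker hz)), lf_span _, ?_⟩
    rintro _ ⟨d, -, x, -, rfl⟩
    rw [smul_mul_smul_comm, smul_mul_smul_comm, lf_mul, lf_mul, mul_comm c,
      Subgroup.mem_center_iff.mp (hc0 hz) x]

/-- from blocks to characters, for a group `W` of automorphisms. -/
theorem fin_w {p : ℕ} [hp : Fact p.Prime] {GG : Subgroup (RingAut F)}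
    (j : Qbar →+* F) (h1 : ∀ σ ∈ GG, ∃ s ∈ NSV.H p, ∀ x, σ (j x) = j (s x))
    (h2 : ∀ s ∈ NSV.H0 p, ∀ n : ℕ, 0 < n → ∃ σ ∈ GG, ∀ ξ : Qbar, ξ ^ n = 1 → σ (j ξ) = j (s ξ))
    (G : Type) [Group G] [Finite G] (N : Subgroup G) (W : Subgroup (MulAut G))
    (hW : ∀ δ ∈ W, ∀ x, δ x ∈ N ↔ x ∈ N)
    (h : EB (Gw GG W) (IrrP F p (Hm F (gu F G) ⊤)) (IrrP F p (Hm F (gu F G) N))) :
    ∃ f : NSV.IrrP p G ≃ NSV.IrrP p N, ∀ γ ∈ W, ∀ σ ∈ NSV.H0 p, ∀ θ θ' : NSV.IrrP p G,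
      (∀ x, θ'.1 x = σ (θ.1 (γ x))) → ∀ m m' : N, (m' : G) = γ m →
        (f θ').1 m = σ ((f θ).1 m') := by
  classical
  have _ := Fintype.ofFinite G
  have _ := Fintype.ofFinite N
  obtain ⟨Ω, hb, he⟩ := h
  have b1 := chi_bij j (gu_mul (F := F) (X := G)) gu_tg.ind hp.out
  have b2 := chi_bij j (gs_mul (F := F) N) (gs_ind N) hp.out
  rw [← gs_hm] at b2
  let f : NSV.IrrP p G ≃ NSV.IrrP p N :=
    (b1.equiv _).trans ((hb.equiv _).trans (b2.equiv _).symm)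
  have hf : ∀ θ : NSV.IrrP p G, chi j (gs F N) (f θ).1 = Ω (chi j (gu F G) θ.1) := fun θ =>
    congrArg Subtype.val ((b2.equiv _).apply_symm_apply _)
  refine ⟨f, fun γ hγ s hs θ θ' hθ m m' hm => ?_⟩
  obtain ⟨σ, hσ, e1⟩ := h2 s hs (Nat.card G) Nat.card_pos
  obtain ⟨s', -, e2⟩ := h1 σ hσ
  have e3 : ∀ ξ : Qbar, ξ ^ Nat.card G = 1 → s' ξ = s ξ := fun ξ hξ =>
    j.injective ((e2 ξ).symm.trans (e1 ξ hξ))
  obtain ⟨g, hg, hgu⟩ := ga_aut (F := F) σ γ⁻¹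
  have hNN : ∀ x, γ⁻¹ x ∈ N ↔ x ∈ N := hW _ (inv_mem hγ)
  have hgm : g ∈ Gw GG W := ⟨⟨σ, hσ, hg⟩, γ⁻¹, inv_mem hγ, hgu⟩
  obtain ⟨n, hn, -⟩ := ch_iff.1 θ.2
  obtain ⟨n', hn', -⟩ := ch_iff.1 (f θ).2
  obtain ⟨n'', hn'', -⟩ := ch_iff.1 (f θ').2
  have e4 : g (chi j (gu F G) θ.1) = chi j (gu F G) θ'.1 :=
    chi_map j (s := s) hg γ⁻¹ hgu (fun x => by
      rw [e2, ch_gal hn s' s Nat.card_pos (fun _ => pow_card_eq_one') e3]) fun x => by
      rw [hθ, MulAut.apply_inv_self]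
  let β := resA N γ⁻¹ hNN
  have hψ := ch_tw (f θ).2 s β.symm
  obtain ⟨n3, hn3, -⟩ := ch_iff.1 hψ
  have e5 : g (chi j (gs F N) (f θ).1) = chi j (gs F N) fun x => s ((f θ).1 (β.symm x)) :=
    chi_map j (s := s) hg β (fun x => hgu x) (fun x => by
      rw [e2, ch_gal hn' s' s Nat.card_pos (fun x => Subtype.ext pow_card_eq_one') e3]) fun x => by
      rw [β.symm_apply_apply]
  have e6 : (f θ').1 = fun x => s ((f θ).1 (β.symm x)) := by
    refine chi_inj j (gs_ind N) hn'' hn3 ?_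
    rw [← e5, hf, hf, ← e4]
    exact (he g hgm _ (b1.mapsTo θ.2)).2
  have e7 : β.symm m = m' := Subtype.ext hm.symm
  rw [e6, ← e7]

end Pool.Agent.Lib.MP_1ae3da_al.CT
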