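import Pool.Agent.Lib.MP_1ae3da_al.C2.Ser
import Pool.Agent.Lib.MP_1ae3da_al.C.GrB

/-! Central products: group theory. -/

namespace Pool.Agent.Lib.MP_1ae3da_al.CT

open Function Subgroup Pool.Agent.Lib.McK

variable {p : ℕ} {G I : Type} [Group G]

/-- the automorphisms that permute the pairs `(S i, M i)`. -/
def Wp (S M : I → Subgroup G) : Subgroup (MulAut G) where
  carrier := {δ | ∃ τ : Equiv.Perm I, ∀ i x, (δ x ∈ S (τ i) ↔ x ∈ S i) ∧ (δ x ∈ M (τ i) ↔ x ∈ M i)}
  one_mem' := ⟨1, fun _ _ => ⟨Iff.rfl, Iff.rfl⟩⟩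
  mul_mem' := by
    rintro a b ⟨τ, h⟩ ⟨ρ, k⟩
    exact ⟨τ * ρ, fun i x => ⟨(h (ρ i) (b x)).1.trans (k i x).1, (h (ρ i) (b x)).2.trans (k i x).2⟩⟩
  inv_mem' := by
    rintro a ⟨τ, h⟩
    refine ⟨τ⁻¹, fun i x => ?_⟩
    have := h (τ⁻¹ i) (a⁻¹ x)
    rw [MulAut.apply_inv_self, show τ (τ⁻¹ i) = i from τ.apply_symm_apply i] at this
    exact ⟨this.1.symm, this.2.symm⟩

theorem bo_map {H : Type} [Group H] {A : Subgroup G} {B : Subgroup H} (δ : G ≃* H) :
    A.map δ.toMonoidHom = B ↔ ∀ x, δ x ∈ B ↔ x ∈ A := by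
  constructor
  · rintro rfl x
    exact ⟨fun ⟨y, hy, e⟩ => δ.injective e ▸ hy, fun h => ⟨x, h, rfl⟩⟩
  · intro h
    ext y
    obtain ⟨x, rfl⟩ := δ.surjective y
    exact ⟨fun ⟨y, hy, e⟩ => e ▸ (h y).2 hy, fun k => ⟨x, (h x).1 k, rfl⟩⟩

theorem wp_sup {S M : I → Subgroup G} {δ : MulAut G} (h : δ ∈ Wp S M) (x : G) :
    δ x ∈ ⨆ i, S i ↔ x ∈ ⨆ i, S i := by
  have key : ∀ δ ∈ Wp S M, ∀ x ∈ ⨆ i, S i, δ x ∈ ⨆ i, S i := by
    rintro δ ⟨τ, h⟩ x hx
    refine iSup_induction S (C := fun x => δ x ∈ ⨆ i, S i) hx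
      (fun i x hx => mem_iSup_of_mem (τ i) ((h i x).1.2 hx)) (by simp) fun a b ha hb => ?_
    rw [map_mul]
    exact mul_mem ha hb
  refine ⟨fun k => ?_, key δ h x⟩
  have := key _ (inv_mem h) _ k
  rwa [MulAut.inv_apply_self] at this

theorem wp_conj {W : Subgroup (MulAut G)} {δ : MulAut G} (h : δ ∈ W) (x : G) :
    δ x ∈ W.comap MulAut.conj ↔ x ∈ W.comap MulAut.conj := by
  have e : MulAut.conj (δ x) = δ * MulAut.conj x * δ⁻¹ := by
    ext y; simp
  rw [mem_comap, mem_comap, e, W.mul_mem_cancel_right (inv_mem h), W.mul_mem_cancel_left h]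

theorem wp_of [Finite I] {S M : I → Subgroup G} (hS : Injective S) {δ : MulAut G}
    (h : ∀ i, ∃ j, (∀ x, δ x ∈ S j ↔ x ∈ S i) ∧ ∀ x, δ x ∈ M j ↔ x ∈ M i) : δ ∈ Wp S M := by
  choose τ h1 h2 using h
  have hτ : Injective τ := fun i j e => hS (Subgroup.ext fun x =>
    (h1 i x).symm.trans (by rw [e]; exact h1 j x))
  exact ⟨Equiv.ofBijective τ (Finite.injective_iff_bijective.1 hτ), fun i x => ⟨h1 i x, h2 i x⟩⟩

section ser
variable {C : ∀ (G : Type) [Group G], Prop} [hp : Fact p.Prime] (hC : Cls p C) (hq : Clo p C)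
include hC

theorem cls_triv [Subsingleton G] : C G := hC.small G fun h => by
  rw [Nat.card_of_subsingleton (1 : G), Nat.dvd_one, Nat.pow_eq_one] at h
  exact h.elim hp.out.ne_one (by norm_num)

omit hp in
include hq in
theorem cls_sup [Finite G] {A B : Subgroup G} (h : ∀ a ∈ A, ∀ b ∈ B, Commute a b)
    (hA : C A) (hB : C B) : C (A ⊔ B : Subgroup G) := by
  have h1 : C (A × B) := hC.hom (MonoidHom.snd A B)
    (hC.iso _ _ ((MonoidHom.ofInjective (f := MonoidHom.inl A B)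
      (Prod.mk_left_injective _)).trans (MulEquiv.subgroupCongr (Subgroup.ext fun x =>
        ⟨fun ⟨_, e⟩ => e ▸ rfl, fun e => ⟨x.1, Prod.ext rfl (Eq.symm e)⟩⟩))) hA)
    (hC.iso _ _ (topEquiv.symm.trans (MulEquiv.subgroupCongr
      (MonoidHom.range_eq_top.2 Prod.snd_surjective).symm)) hB)
  let f := MonoidHom.noncommCoprod A.subtype B.subtype fun a b => h a a.2 b b.2
  have h2 : f.range = A ⊔ B := by
    refine (MonoidHom.noncommCoprod_range _ _ _).trans ?_
    rw [range_subtype, range_subtype]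
  exact hC.iso _ _ (MulEquiv.subgroupCongr h2)
    (hq.quot _ _ h1 f.rangeRestrict f.rangeRestrict_surjective)

include hq in
theorem cls_iSup [Finite G] [Finite I] {M : I → Subgroup G}
    (hc : Pairwise fun i j : I => ∀ x y : G, x ∈ M i → y ∈ M j → Commute x y)
    (h : ∀ i, C (M i)) : C (⨆ i, M i : Subgroup G) := by
  have key : ∀ s : Set I, s.Finite → C (⨆ i ∈ s, M i : Subgroup G) := fun s hs => by
    induction s, hs using Set.Finite.induction_on with
    | empty =>
      rw [iSup_emptyset]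
      exact cls_triv hC
    | @insert a s ha _ ih =>
      rw [iSup_insert]
      refine cls_sup hC hq (fun x hx y hy => commute_iSup (fun j z hz => ?_) hy) (h a) ih
      by_cases k : j ∈ s
      · rw [iSup_pos k] at hz
        exact hc (fun e : a = j => ha (e ▸ k)) x z hx hz
      · rw [iSup_neg k, mem_bot] at hz
        rw [hz]; exact Commute.one_right x
  have := key Set.univ Set.finite_univ
  rwa [iSup_univ] at this

omit hp in
/-- a series that starts at `s 0`, cut down to a subgroup `T`. -/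
theorem cls_cut [Finite G] (n : ℕ) (s : ℕ → Subgroup G)
    (h : ∀ i < n, s i ≤ s (i + 1) ∧ ∃ (H : Type) (_ : Group H) (f : s (i + 1) →* H),
      Surjective f ∧ f.ker = (s i).subgroupOf (s (i + 1)) ∧ C H)
    {T : Subgroup G} (hT : ∀ x, ∃ t ∈ T, ∃ l ∈ s 0, t * l = x) (h0 : C (T ⊓ s 0 : Subgroup G)) :
    C (T ⊓ s n : Subgroup G) := by
  have key : ∀ i ≤ n, s 0 ≤ s i ∧ C (T ⊓ s i : Subgroup G) := by
    intro i
    induction i with
    | zero => exact fun _ => ⟨le_rfl, h0⟩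
    | succ i ih =>
      intro hi
      obtain ⟨h1, H, _, f, hf, hk, h4⟩ := h i hi
      obtain ⟨i1, i2⟩ := ih (by omega)
      let g := f.comp (inclusion (inf_le_right : T ⊓ s (i + 1) ≤ s (i + 1)))
      have hg : Surjective g := fun y => by
        obtain ⟨x, rfl⟩ := hf y
        obtain ⟨t, ht, l, hl, e⟩ := hT x
        have h5 : t ∈ s (i + 1) := by
          have := mul_mem x.2 (inv_mem (h1 (i1 hl)))
          rwa [← e, mul_inv_cancel_right] at this
        have h6 : f ⟨l, h1 (i1 hl)⟩ = 1 := MonoidHom.mem_ker.1 (hk.ge (i1 hl))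
        refine ⟨⟨t, ht, h5⟩, ?_⟩
        rw [show x = ⟨t, h5⟩ * ⟨l, h1 (i1 hl)⟩ from Subtype.ext e.symm, map_mul, h6, mul_one]
        rfl
      have hk' : g.ker = (T ⊓ s i).subgroupOf (T ⊓ s (i + 1)) := by
        ext x
        rw [← MonoidHom.comap_ker, hk]
        exact ⟨fun a => ⟨x.2.1, a⟩, fun a => a.2⟩
      refine ⟨i1.trans h1, hC.ext _ g.ker ?_
        (hC.iso _ _ (QuotientGroup.quotientKerEquivOfSurjective g hg).symm h4)⟩
      rw [hk']
      exact hC.iso _ _ (subgroupOfEquivOfLe (inf_le_inf_left T h1)).symm i2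
  exact (key n le_rfl).2

omit hp in
theorem cls_up [Finite G] (n : ℕ) (s : ℕ → Subgroup G)
    (h : ∀ i < n, s i ≤ s (i + 1) ∧ ∃ (H : Type) (_ : Group H) (f : s (i + 1) →* H),
      Surjective f ∧ f.ker = (s i).subgroupOf (s (i + 1)) ∧ C H) (h0 : C (s 0)) : C (s n) := by
  have := cls_cut hC n s h (T := ⊤) (fun x => ⟨x, trivial, 1, one_mem _, mul_one x⟩)
    (by rwa [top_inf_eq])
  rwa [top_inf_eq] at this

end ser

section prod
variable [Fintype I] {S : I → Subgroup G}
  (hc : Pairwise fun i j : I => ∀ x y : G, x ∈ S i → y ∈ S j → Commute x y)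

theorem bo_ker : (noncommPiCoprod hc).ker ≤ center (∀ i, S i) := fun y hy =>
  mem_center_iff.2 fun z => funext fun i => Subtype.ext (by
    have h := prod_conj (hc := hc) y i (z i).2
    rw [MonoidHom.mem_ker.1 hy, one_mul, inv_one, mul_one] at h
    change (z i : G) * y i = y i * z i
    rw [eq_mul_inv_iff_mul_eq] at h
    exact h)

/-- the lift of an automorphism to the direct product. -/
theorem bo_lift {δ : MulAut G} {τ : Equiv.Perm I} (h : ∀ i x, δ x ∈ S (τ i) ↔ x ∈ S i) :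
    ∃ a : MulAut (∀ i, S i), (∀ y i, (a y (τ i) : G) = δ (y i)) ∧
      ∀ y, noncommPiCoprod hc (a y) = δ (noncommPiCoprod hc y) := by
  classical
  have h' (i) (x : S (τ.symm i)) : δ x ∈ S i := by
    have := (h (τ.symm i) x).2 x.2
    rwa [τ.apply_symm_apply] at this
  let b : (∀ i, S i) →* ∀ i, S i := MonoidHom.mk' (fun y i => ⟨δ (y (τ.symm i)), h' i _⟩)
    fun y z => funext fun i => Subtype.ext (map_mul δ _ _)
  have hb (y i) : (b y (τ i) : G) = δ (y i) := by
    change δ (y (τ.symm (τ i))) = _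
    rw [τ.symm_apply_apply]
  have hs : Surjective b := fun z => ⟨fun i => ⟨δ.symm (z (τ i)), (h i _).1 (by simp)⟩,
    funext fun i => by
      obtain ⟨i, rfl⟩ := τ.surjective i
      exact Subtype.ext (by rw [hb]; simp)⟩
  have hi : Injective b := fun y z e => funext fun i => Subtype.ext (δ.injective (by
    rw [← hb, ← hb, e]))
  refine ⟨MulEquiv.ofBijective b ⟨hi, hs⟩, hb, fun y => ?_⟩
  have : (noncommPiCoprod hc).comp b = δ.toMonoidHom.comp (noncommPiCoprod hc) :=
    MonoidHom.pi_ext fun i x => by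
      have e : b (Pi.mulSingle i x) = Pi.mulSingle (τ i) ⟨δ x, (h i x).2 x.2⟩ := funext fun j => by
        obtain ⟨j, rfl⟩ := τ.surjective j
        refine Subtype.ext ?_
        rw [hb]
        by_cases k : j = i
        · subst k; simp
        · rw [Pi.mulSingle_eq_of_ne k, Pi.mulSingle_eq_of_ne (τ.injective.ne k)]; simp
      rw [MonoidHom.comp_apply, e, noncommPiCoprod_mulSingle, MonoidHom.comp_apply,
        noncommPiCoprod_mulSingle]
      rfl
  exact DFunLike.congr_fun this y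

theorem bo_fix (y : ∀ i, S i) (i : I) (z : G) :
    MulAut.conj (noncommPiCoprod hc y) z ∈ S i ↔ z ∈ S i := by
  have key (y : ∀ i, S i) {z : G} (hz : z ∈ S i) : MulAut.conj (noncommPiCoprod hc y) z ∈ S i := by
    rw [MulAut.conj_apply, prod_conj y i hz]
    exact mul_mem (mul_mem (y i).2 hz) (inv_mem (y i).2)
  refine ⟨fun h => ?_, key y⟩
  have := key y⁻¹ h
  rwa [map_inv, map_inv, MulAut.inv_apply_self] at this

/-- membership in the stabiliser of the family. -/
theorem bo_mem (hS : Injective S) {M : I → Subgroup G} (hM : ∀ i, M i ≤ S i)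
    (hn : ∀ i, ∀ x ∈ S i, x ∈ normalizer (M i : Set G) → x ∈ M i) (y : ∀ i, S i) :
    noncommPiCoprod hc y ∈ (Wp S M).comap MulAut.conj ↔ ∀ i, (y i : G) ∈ M i := by
  constructor
  · rintro ⟨τ, h⟩ i
    have h1 : τ i = i := hS (Subgroup.ext fun w => by
      obtain ⟨z, rfl⟩ := (MulAut.conj (noncommPiCoprod hc y)).surjective w
      exact (h i z).1.trans (bo_fix hc y i z).symm)
    have h2 {z : G} (hz : z ∈ S i) : z ∈ M i ↔ y i * z * (y i : G)⁻¹ ∈ M i := by
      rw [← (h i z).2, h1, MulAut.conj_apply, prod_conj y i hz]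
    refine hn i _ (y i).2 (mem_normalizer_iff.2 fun z => ⟨fun a => (h2 (hM i a)).1 a, fun a => ?_⟩)
    have := hM i a
    rw [(S i).mul_mem_cancel_right (inv_mem (y i).2), (S i).mul_mem_cancel_left (y i).2] at this
    exact (h2 this).2 a
  · refine fun h => ⟨1, fun i z => ⟨bo_fix hc y i z, ?_⟩⟩
    have h2 (hz : z ∈ S i) : MulAut.conj (noncommPiCoprod hc y) z ∈ M i ↔ z ∈ M i := by
      rw [MulAut.conj_apply, prod_conj y i hz, (M i).mul_mem_cancel_right (inv_mem (h i)),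
        (M i).mul_mem_cancel_left (h i)]
    exact ⟨fun a => (h2 ((bo_fix hc y i z).1 (hM i a))).1 a, fun a => (h2 (hM i a)).2 a⟩

include hc in
theorem bo_inf (hS : Injective S) {M : I → Subgroup G} (hM : ∀ i, M i ≤ S i)
    (hn : ∀ i, ∀ x ∈ S i, x ∈ normalizer (M i : Set G) → x ∈ M i) :
    (Wp S M).comap MulAut.conj ⊓ ⨆ i, S i = ⨆ i, M i := by
  classical
  refine le_antisymm (fun x hx => ?_) (iSup_le fun i => le_inf (fun x hx => ?_)
    ((hM i).trans (le_iSup S i)))
  · obtain ⟨y, rfl⟩ := exists_prod (hc := hc) hx.2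
    exact prod_mem y fun i => mem_iSup_of_mem i ((bo_mem hc hS hM hn y).1 hx.1 i)
  · have := (bo_mem hc hS hM hn (Pi.mulSingle i ⟨x, hM i hx⟩)).2 fun j => by
      by_cases k : j = i
      · subst k; simpa using hx
      · rw [Pi.mulSingle_eq_of_ne k]; exact one_mem _
    rwa [noncommPiCoprod_mulSingle] at this

end prod

end Pool.Agent.Lib.MP_1ae3da_al.CT
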