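import Pool.Agent.Lib.MP_1ae3da_al.C2.Bo1
import Pool.Agent.Lib.MP_1ae3da_al.C2.Bo2
import Pool.Agent.Lib.MP_1ae3da_al.C.B2

/-! The linked bijection for a central product of perfect groups. -/

namespace Pool.Agent.Lib.MP_1ae3da_al.CT

open Function Subgroup Pool.Agent.Lib.McK

variable {p : ℕ} {F : Type} [Field F] {GG : Subgroup (RingAut F)}
  {C : ∀ (G : Type) [Group G], Prop}

variable (p GG C) in
/-- `M` is a good local subgroup of `X`. -/
def Lf (X : Type) [Group X] (M : Subgroup X) : Prop :=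
  normalizer (M : Set X) ≤ M ∧ C M ∧ ∀ (A : Type) [Ring A] [Algebra F A] (u : X → A),
    TG F u → (∀ x y, u x * u y = u (x * y)) → ML F p GG (Hm F u ⊤) (Hm F u M)

variable (p GG C) in
/-- a perfect group with a good local subgroup attached to a Sylow subgroup. -/
def Leaf (X : Type) [Group X] : Prop :=
  commutator X = ⊤ ∧ ∃ (R : Sylow p X) (M : Subgroup X),
    (∀ γ : MulAut X, (∀ x, γ x ∈ R ↔ x ∈ R) → ∀ x, γ x ∈ M ↔ x ∈ M) ∧ Lf p GG C X M

theorem Lf.map (hC : Cls p C) {X Y : Type} [Group X] [Group Y] {M : Subgroup X}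
    (h : Lf p GG C X M) (e : X ≃* Y) : Lf p GG C Y (M.map e.toMonoidHom) := by
  refine ⟨?_, hC.iso _ _ (M.equivMapOfInjective _ e.injective) h.2.1,
    fun A _ _ u hu hm => ?_⟩
  · rw [← map_equiv_normalizer_eq]
    exact map_mono h.1
  · have := h.2.2 A (u ∘ e.toMonoidHom) (hu.comp _ e.injective) fun x y => by
      simp only [comp, map_mul, hm]
    rwa [Hm_comp, Hm_comp, map_top_of_surjective _ e.surjective] at this

/-- a choice of local subgroups that is natural for all isomorphisms. -/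
theorem nat_choice [Fact p.Prime] (Φ : ∀ (X : Type) [Group X], Subgroup X → Prop)
    (hΦ : ∀ (X Y : Type) [Group X] [Group Y] (M : Subgroup X) (e : X ≃* Y), Φ X M →
      Φ Y (M.map e.toMonoidHom)) {I : Type} (X : I → Type) [∀ i, Group (X i)]
    [∀ i, Finite (X i)] (Q : ∀ i, Sylow p (X i))
    (h : ∀ i, ∃ (R : Sylow p (X i)) (M : Subgroup (X i)),
      (∀ γ : MulAut (X i), (∀ x, γ x ∈ R ↔ x ∈ R) → ∀ x, γ x ∈ M ↔ x ∈ M) ∧ Φ (X i) M) :
    ∃ M : ∀ i, Subgroup (X i), (∀ i, Φ (X i) (M i)) ∧ ∀ i j (e : X i ≃* X j),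
      (∀ x, e x ∈ Q j ↔ x ∈ Q i) → ∀ x, e x ∈ M j ↔ x ∈ M i := by
  choose R M h1 h2 using h
  let s : Setoid I := ⟨fun i j => Nonempty (X i ≃* X j), fun i => ⟨MulEquiv.refl _⟩,
    fun ⟨e⟩ => ⟨e.symm⟩, fun ⟨e⟩ ⟨f⟩ => ⟨e.trans f⟩⟩
  let r : I → I := fun i => (Quotient.mk s i).out
  have ex (i) : ∃ e : X (r i) ≃* X i, ∀ x, e x ∈ Q i ↔ x ∈ R (r i) := by
    obtain ⟨e⟩ : Nonempty (X (r i) ≃* X i) := Quotient.mk_out (s := s) i
    obtain ⟨g, hg⟩ := MulAction.exists_smul_eq (X i)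
      ((R (r i)).mapSurjective (f := e.toMonoidHom) e.surjective) (Q i)
    refine ⟨e.trans (MulAut.conj g), fun x =>
      (bo_map (A := R (r i)) (B := Q i) (e.trans (MulAut.conj g))).1 ?_ x⟩
    rw [← hg]
    exact (map_map (R (r i) : Subgroup _) (MulAut.conj g).toMonoidHom e.toMonoidHom).symm
  choose e he using ex
  refine ⟨fun i => (M (r i)).map (e i).toMonoidHom, fun i => hΦ _ _ _ _ (h2 _), fun i j f hf => ?_⟩
  have key : ∀ k l, k = l → ∀ (a : X k ≃* X i) (b : X l ≃* X j), (∀ x, a x ∈ Q i ↔ x ∈ R k) →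
      (∀ x, b x ∈ Q j ↔ x ∈ R l) →
      ∀ x, f x ∈ (M l).map b.toMonoidHom ↔ x ∈ (M k).map a.toMonoidHom := by
    rintro k _ rfl a b ha hb x
    rw [mem_map_equiv, mem_map_equiv, ← h1 k ((a.trans f).trans b.symm) (fun y => by
      rw [← hb, ← ha, ← hf]; simp) (a.symm x)]
    simp
  exact key _ _ (congrArg Quotient.out (Quotient.sound (s := s) ⟨f⟩)) _ _ (he i) (he j)

theorem bo_perf {A B : Type} [Group A] [Group B] (f : A →* B) (hf : Surjective f)
    (h : commutator A = ⊤) : commutator B = ⊤ := by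
  have := map_commutator_eq A f
  rw [h, map_top_of_surjective _ hf, MonoidHom.range_eq_top.2 hf] at this
  exact this.symm

theorem bo_single {I : Type} [DecidableEq I] {X : I → Type} [∀ i, Group (X i)] (i : I)
    (K : Subgroup (X i)) (x : ∀ i, X i) :
    x ∈ K.map (MonoidHom.mulSingle X i) ↔ x i ∈ K ∧ ∀ j, j ≠ i → x j = 1 := by
  constructor
  · rintro ⟨y, hy, rfl⟩
    exact ⟨by simpa using hy, fun j h => Pi.mulSingle_eq_of_ne h _⟩
  · refine fun h => ⟨x i, h.1, funext fun j => ?_⟩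
    by_cases k : j = i
    · subst k; simp
    · rw [h.2 j k]; exact Pi.mulSingle_eq_of_ne k _

theorem bo_sup {I : Type} [Finite I] [DecidableEq I] {X : I → Type} [∀ i, Group (X i)]
    (K : ∀ i, Subgroup (X i)) (x : ∀ i, X i) :
    x ∈ ⨆ i, (K i).map (MonoidHom.mulSingle X i) ↔ ∀ i, x i ∈ K i := by
  refine ⟨fun h i => ?_, fun h => pi_mem_of_mulSingle_mem x fun i =>
    mem_iSup_of_mem i ⟨x i, h i, rfl⟩⟩
  refine (iSup_le fun j y hy => ?_ : _ ≤ (K i).comap (Pi.evalMonoidHom X i)) h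
  rw [bo_single] at hy
  change y i ∈ K i
  by_cases k : i = j
  · subst k; exact hy.1
  · rw [hy.2 i k]; exact one_mem _

theorem bo_lk [CharZero F] [IsAlgClosed F] (hp : p.Prime) {G I : Type} [Group G] [Finite G]
    [Fintype I] [Nonempty I] {S : I → Subgroup G}
    (hc : Pairwise fun i j : I => ∀ x y : G, x ∈ S i → y ∈ S j → Commute x y) (hS : Injective S)
    (hX : ∀ i, commutator (S i) = ⊤) (M : ∀ i, Subgroup (S i)) (hM : ∀ i, Lf p GG C (S i) (M i)) :
    LK F (Gw GG (Wp S fun i => (M i).map (S i).subtype)) (Hm F (gu F G) (⨆ i, S i))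
      (Hm F (gu F G) (⨆ i, (M i).map (S i).subtype)) (IrrP F p (Hm F (gu F G) (⨆ i, S i)))
      (IrrP F p (Hm F (gu F G) (⨆ i, (M i).map (S i).subtype))) := by
  classical
  let ι := fun i => MonoidHom.mulSingle (fun i => S i) i
  have hι (i) : Injective (ι i) := Pi.mulSingle_injective (M := fun i => S i) i
  have hm (i) (x : S i) : (x : G) ∈ (M i).map (S i).subtype ↔ x ∈ M i :=
    mem_map_iff_mem (S i).subtype_injective
  have e1 (i) : ((⊤ : Subgroup (S i)).map (ι i)).map (noncommPiCoprod hc) = S i := by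
    rw [map_map, show (noncommPiCoprod hc).comp (ι i) = (S i).subtype from
      MonoidHom.ext fun x => noncommPiCoprod_mulSingle (hcomm := hc) i x,
      ← MonoidHom.range_eq_map, range_subtype]
  have k := b2 (GG := GG) hp (gu_tg (F := F)) (fun i => (⊤ : Subgroup (S i)).map (ι i))
    (fun i => (M i).map (ι i)) (fun i => map_mono le_top)
    (fun i j e => hS (by rw [← e1 i, ← e1 j]; exact congrArg _ e))
    (fun i => bo_perf ((ι i).codRestrict _ fun x => ⟨x, trivial, rfl⟩)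
      (fun ⟨_, x, _, e⟩ => ⟨x, Subtype.ext e⟩) (hX i))
    (by
      rintro i j h _ ⟨x, -, rfl⟩ _ ⟨y, -, rfl⟩
      exact (Pi.mulSingle_commute (f := fun i => S i) h x y).eq)
    (fun i => disjoint_def.2 fun {x} hx hx' => funext fun j => by
      by_cases e : j = i
      · subst e
        refine (iSup₂_le fun l hl y hy => ?_ :
          _ ≤ (Pi.evalMonoidHom (fun i => S i) j).ker) hx'
        exact ((bo_single _ _ _).1 hy).2 j (Ne.symm hl)
      · exact ((bo_single _ _ _).1 hx).2 j e)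
    (Gw GG (Wp (fun i => (⊤ : Subgroup (S i)).map (ι i)) fun i => (M i).map (ι i)))
    (fun _ h => h.1)
    (by
      rintro γ ⟨⟨σ, -, h1⟩, δ, ⟨τ, h2⟩, h3⟩ i
      have h4 (x) : ∃ c : F, c ≠ 0 ∧ γ (gu F _ x) = c • gu F _ (δ x) :=
        ⟨1, one_ne_zero, by rw [h3, one_smul]⟩
      exact ⟨τ i, by rw [image_Hm h1 h4, (bo_map δ).2 fun x => (h2 i x).1],
        by rw [image_Hm h1 h4, (bo_map δ).2 fun x => (h2 i x).2]⟩)
    fun i => by
      have := (hM i).2.2 _ (gu F _ ∘ ι i) (gu_tg.comp _ (hι i)) fun x y => by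
        simp only [comp, map_mul, gu_mul]
      rwa [Hm_comp, Hm_comp] at this
  let π : (∀ i, S i) →* (⨆ i, S i : Subgroup G) := (noncommPiCoprod hc).codRestrict _
    fun y => prod_mem y fun i => mem_iSup_of_mem i (y i).2
  have hle (i) : (M i).map (S i).subtype ≤ S i := map_subtype_le _
  have hn (i) (x) (hx : x ∈ S i) (h : x ∈ normalizer (((M i).map (S i).subtype : Subgroup G) :
      Set G)) : x ∈ (M i).map (S i).subtype :=
    (hm i ⟨x, hx⟩).2 ((hM i).1 (mem_normalizer_iff.2 fun z => by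
      rw [← hm, ← hm]; exact mem_normalizer_iff.1 h z))
  have e2 : (⨆ i, (⊤ : Subgroup (S i)).map (ι i)) = ⊤ :=
    eq_top_iff.2 fun x _ => (bo_sup _ x).2 fun _ => trivial
  have e3 : (⨆ i, (M i).map (ι i)) =
      ((⨆ i, (M i).map (S i).subtype).subgroupOf (⨆ i, S i)).comap π := by
    ext y
    rw [bo_sup, mem_comap, mem_subgroupOf, ← bo_inf hc hS hle hn, mem_inf]
    exact ⟨fun h => ⟨(bo_mem hc hS hle hn y).2 fun i => (hm i _).2 (h i), (π y).2⟩,
      fun h i => (hm i _).1 ((bo_mem hc hS hle hn y).1 h.1 i)⟩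
  rw [e2, e3] at k
  have := lk_lift (π := π) (u := gu F G ∘ (⨆ i, S i).subtype)
    (Γ := Gw GG (Wp S fun i => (M i).map (S i).subtype)) (by
      rw [_root_.commutator_def, ← pi_top Set.univ, commutator_pi_pi_of_finite]
      exact congrArg _ (funext hX))
    (fun x => by
      obtain ⟨y, hy⟩ := exists_prod (hc := hc) x.2
      exact ⟨y, Subtype.ext hy⟩)
    (fun y hy => bo_ker hc (congrArg Subtype.val hy))
    (gu_tg.comp _ (subtype_injective _)) (fun x y => gu_mul _ _) _ (fun _ h => h.1) ?_ k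
  · rwa [Hm_comp, Hm_comp, ← MonoidHom.range_eq_map, range_subtype, subgroupOf_map_subtype,
      inf_eq_left.2 (iSup_mono hle)] at this
  rintro γ ⟨-, δ, ⟨τ, h2⟩, h3⟩
  obtain ⟨a, a1, a2⟩ := bo_lift hc fun i x => (h2 i x).1
  have a3 (i) (x) : (∀ j, j ≠ τ i → a x j = 1) ↔ ∀ j, j ≠ i → x j = 1 := by
    rw [τ.surjective.forall]
    refine forall_congr' fun j => imp_congr τ.injective.ne_iff ?_
    rw [Subtype.ext_iff, Subtype.ext_iff, a1]
    exact map_eq_one_iff δ δ.injective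
  refine ⟨a, ⟨τ, fun i x => ⟨?_, ?_⟩⟩, fun x => (congrArg (gu F G) (a2 x)).trans (h3 _).symm⟩
  · rw [bo_single, bo_single, a3]
    exact and_congr_left' Iff.rfl
  · rw [bo_single, bo_single, a3, ← hm, ← hm, a1]
    exact and_congr_left' (h2 i _).2

end Pool.Agent.Lib.MP_1ae3da_al.CT
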