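import Pool.Agent.Lib.MP_1ae3da_al.C2.CompA
import Pool.Agent.Lib.MP_1ae3da_al.Y.Rc

/-! The linked McKay bijection for a component in the larger class. -/

namespace Pool.Agent.Lib.MP_1ae3da_al.CT

open Submodule Pool.Agent.Lib.McK

variable {p : ℕ} {F k A : Type} [Field F] [Field k] [Ring A] [Algebra F A] {O R : Subring F}
  {r : F → k} {GG : Subgroup (RingAut F)}

/-- cyclic Sylow subgroup. -/
theorem comp2_cyc (h : PM p O R r GG) (hp2 : p ≠ 2) (S : Type) [Group S] [Finite S]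
    (hperf : commutator S = ⊤) (h1 : p ∣ Nat.card S) {u : S → A} (hu : TG F u) (Q : Sylow p S)
    (hQ : IsCyclic (Q : Subgroup S)) :
    ML F p GG (Hm F u ⊤)
      (Hm F u (Subgroup.normalizer ((McK.Om p (Q : Subgroup S) : Subgroup S) : Set S))) := by
  have : Fact p.Prime := ⟨h.prime⟩
  have := h.charF
  have := h.algF
  obtain ⟨X, _, _, π, hπ⟩ := exists_uce S hperf
  obtain ⟨T, hT, -⟩ := uce_syl π hπ.surj hπ.cent Q
  obtain ⟨c1, c2⟩ := cov_cyc hπ.perf π hπ.cent T (by rwa [hT])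
  apply lf_ml hπ hu
  rw [← hT, c2]
  by_cases h2 : p ^ 2 ∣ Nat.card X
  · exact rc h hp2 X hπ.perf T c1 h2
  · rw [cov_om h2 T]
    exact r5 h X hπ.perf (h1.trans (Subgroup.card_dvd_of_surjective π hπ.surj)) h2 T

theorem comp2 (h : PM p O R r GG) (hp2 : p ≠ 2) (j : NSV.Qbar →+* F)
    (hj : ∀ σ ∈ GG, ∃ s ∈ NSV.H p, ∀ x, σ (j x) = j (s x)) :
    InS2 p F A GG (Ser2 p) (RtC p) := by
  intro S _ _ hs hperf h1 hS u hu Q
  have hp := h.prime
  have : Fact p.Prime := ⟨hp⟩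
  by_cases hQ : IsCyclic (Q : Subgroup S)
  · rw [rtc_pos hQ]
    exact comp2_cyc h hp2 S hperf h1 hu Q hQ
  rw [rtc_neg hQ]
  rcases (hS.simple hs).cases hp2 with h2 | ⟨n, -, ⟨e⟩⟩ | ⟨K, _, _, _, hK, ⟨e⟩⟩
  · exact absurd (h2.2 Q) hQ
  · exact comp2_big h hp2 j hj S hperf (not_not.1 fun h4 => hQ ((CycS.small h4).2 Q)) e hu Q
  · exact psl_ml h hp2 j hj K hK S e hu Q

end Pool.Agent.Lib.MP_1ae3da_al.CT
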