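import Pool.Agent.Lib.MP_1ae3da_al.C.Fin
import Pool.Agent.Lib.MP_1ae3da_al.C2.Comp

/-! The Galois-McKay bijection for the class `Ser2 p`. -/

namespace Pool.Agent.Lib.MP_1ae3da_al.CT

open Pool.Agent.Lib.McK

theorem final2 (p : ℕ) [hp : Fact p.Prime] (hp2 : p ≠ 2) (G : Type) [Group G] [Finite G]
    (hG : Ser2 p G) (P : Sylow p G) :
    ∃ f : NSV.IrrP p G ≃ NSV.IrrP p (Subgroup.normalizer (P : Set G)),
      ∀ γ : MulAut G, (∀ x, γ x ∈ P ↔ x ∈ P) → ∀ σ ∈ NSV.H0 p, ∀ θ θ' : NSV.IrrP p G,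
        (∀ x, θ'.1 x = σ (θ.1 (γ x))) → ∀ m m' : Subgroup.normalizer (P : Set G),
          (m' : G) = γ m → (f θ').1 m = σ ((f θ).1 m') := by
  obtain ⟨F, k, _, _, O, R, r, GG, j, h, h1, h2⟩ := exists_sys p hp.out
  have := h.charF
  have := h.algF
  exact fin_of j h1 h2 G P (main2_ind (ser2_clo hp2) rtc_ok
    (fun G _ _ u hu L E _ a b c => b1 h hu L E a b c)
    (fun G I _ _ _ _ u hu S M a b c d e Γ f g i => b2 h.prime hu S M a b c d e Γ f g i)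
    (comp2 h hp2 j h1) (Nat.card G + 1) G (Nat.lt_succ_self _) hG _ gu_tg P)

end Pool.Agent.Lib.MP_1ae3da_al.CT
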