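import Pool.Agent.Lib.MP_1ae3da_al.C2.Bo3
import Pool.Agent.Lib.MP_1ae3da_al.C2.Fin

/-! The McKay bijection above a central product of leaves. -/

namespace Pool.Agent.Lib.MP_1ae3da_al.CT

open Function Subgroup Pool.Agent.Lib.McK

variable {p : ℕ} {F : Type} [Field F] {GG : Subgroup (RingAut F)}
  {C : ∀ (G : Type) [Group G], Prop}

theorem bo_down {A G : Type} [Ring A] [Algebra F A] [Group G] [Finite G] {u : G → A}
    (P : Sylow p G) (T : Subgroup G) (hN : normalizer (P : Set G) ≤ T)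
    (h : ∀ Q : Sylow p T, MN F p GG (u ∘ T.subtype) Q) :
    EB (SG GG A ⊓ Stb (Hm F u T) ⊓ Stb (Hm F u P)) (IrrP F p (Hm F u T))
      (IrrP F p (Hm F u (normalizer (P : Set G)))) := by
  have hPT : (P : Subgroup G) ≤ T := le_trans le_normalizer hN
  have := h (P.subtype hPT)
  unfold MN at this
  rw [Hm_comp, Hm_comp, Hm_comp] at this
  have e1 : (⊤ : Subgroup T).map T.subtype = T := by
    rw [← MonoidHom.range_eq_map, range_subtype]
  have e2 : ((P.subtype hPT : Sylow p T) : Subgroup T).map T.subtype = P := by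
    rw [Sylow.coe_subtype, subgroupOf_map_subtype, inf_eq_left.2 hPT]
  have e3 : (normalizer (((P.subtype hPT : Sylow p T) : Subgroup T) : Set T)).map
      T.subtype = normalizer (P : Set G) := by
    rw [Sylow.coe_subtype, main_norm T P hPT]
    exact inf_eq_left.2 hN
  rw [e1, e2, e3] at this
  exact this

/-- the restriction of an automorphism to an isomorphism of subgroups. -/
def resI {G : Type} [Group G] {A B : Subgroup G} (δ : MulAut G) (h : ∀ x, δ x ∈ B ↔ x ∈ A) :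
    A ≃* B where
  toFun x := ⟨δ x, (h x).2 x.2⟩
  invFun x := ⟨δ.symm x, (h _).1 (by simp)⟩
  left_inv x := Subtype.ext (by simp)
  right_inv x := Subtype.ext (by simp)
  map_mul' x y := Subtype.ext (by simp)

theorem bo_main [CharZero F] [IsAlgClosed F] [hp : Fact p.Prime] (hC : Cls p C) (hq : Clo p C)
    {G I : Type} [Group G] [Finite G] [Fintype I] [Nonempty I] {S : I → Subgroup G}
    (hc : Pairwise fun i j : I => ∀ x y : G, x ∈ S i → y ∈ S j → Commute x y) (hS : Injective S)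
    (hl : ∀ i, Leaf p GG C (S i)) (hj : ∀ g : G, MulAut.conj g ∈ Wp S S) [(⨆ i, S i).Normal]
    (hT : ∀ T : Subgroup G, T ⊔ ⨆ i, S i = ⊤ → C (T ⊓ ⨆ i, S i : Subgroup G) → C T)
    (ih : ∀ n, IH2 F (MonoidAlgebra F G) p GG C n) (P : Sylow p G)
    {W : Subgroup (MulAut G)} (hW : W ≤ Wp S S) (hP : ∀ δ ∈ W, ∀ x, δ x ∈ P ↔ x ∈ P) :
    EB (Gw GG W) (IrrP F p (Hm F (gu F G) ⊤))
      (IrrP F p (Hm F (gu F G) (normalizer (P : Set G)))) := by
  choose Q hQ using grb_sylow S (fun i j h x hx y hy => (hc h x y hx hy).eq) P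
  have hQ' (i) (x : S i) : x ∈ Q i ↔ (x : G) ∈ P := by
    rw [← SetLike.mem_coe, ← Sylow.coe_coe, hQ]; rfl
  obtain ⟨M, hM, hnat⟩ := nat_choice (Lf p GG C) (fun _ _ _ _ _ e h => h.map hC e)
    (fun i => S i) Q fun i => (hl i).2
  let M' := fun i => (M i).map (S i).subtype
  have hm (i) (x : S i) : (x : G) ∈ M' i ↔ x ∈ M i := mem_map_iff_mem (S i).subtype_injective
  have hle (i) : M' i ≤ S i := map_subtype_le _
  have hn (i) (x) (hx : x ∈ S i) (h : x ∈ normalizer (M' i : Set G)) : x ∈ M' i :=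
    (hm i ⟨x, hx⟩).2 ((hM i).1 (mem_normalizer_iff.2 fun z => by
      rw [← hm, ← hm]; exact mem_normalizer_iff.1 h z))
  have nat {δ} (h : δ ∈ Wp S S) (k : ∀ x ∈ ⨆ i, S i, δ x ∈ P ↔ x ∈ P) : δ ∈ Wp S M' := by
    obtain ⟨τ, h⟩ := h
    refine ⟨τ, fun i x => ⟨(h i x).1, ?_⟩⟩
    have h1 (hx : x ∈ S i) : δ x ∈ M' (τ i) ↔ x ∈ M' i :=
      (hm _ (resI δ (fun x => (h i x).1) ⟨x, hx⟩)).trans ((hnat i (τ i) _ (fun y => by
        rw [hQ', hQ']; exact k y (mem_iSup_of_mem i y.2)) _).trans (hm i ⟨x, hx⟩).symm)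
    exact ⟨fun a => (h1 ((h i x).1.1 (hle _ a))).1 a, fun a => (h1 (hle _ a)).2 a⟩
  let T := (Wp S M').comap (MulAut.conj (G := G))
  have e : T ⊓ ⨆ i, S i = ⨆ i, M' i := bo_inf hc hS hle hn
  have t1 : normalizer (((P : Subgroup G) ⊓ ⨆ i, S i : Subgroup G) : Set G) ≤ T := fun g hg =>
    nat (hj g) fun x hx => ⟨fun a => ((mem_normalizer_iff.1 hg x).2
      ⟨a, (wp_sup (hj g) x).2 hx⟩).1, fun a => ((mem_normalizer_iff.1 hg x).1 ⟨a, hx⟩).1⟩
  have t2 : T ⊔ ⨆ i, S i = ⊤ := eq_top_iff.2 (frattini P (⨆ i, S i) ▸ sup_le_sup_right t1 _)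
  have t3 : C T := hT T t2 (e ▸ cls_iSup hC hq
    (fun i j h x y hx hy => hc h x y (hle i hx) (hle j hy))
    fun i => hC.iso _ _ ((M i).equivMapOfInjective _ (S i).subtype_injective) (hM i).2.1)
  have s1 : Gw GG (Wp S M') ≤ Stb (Hm F (gu F G) T) := gw_stb fun δ h => wp_conj h
  have c := cons (p := p) (GG := GG) (Γ := Gw GG (Wp S M')) hp.out gu_tg t2
    (le_inf (le_inf (le_inf (fun _ h => h.1) (gw_stb fun _ _ _ => Iff.rfl)) s1)
      (gw_stb fun δ h => wp_sup h)) (fun x hx => gw_ad hx) le_rfl (fun _ _ _ h _ => h)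
    (by rw [e]; exact bo_lk hp.out hc hS (fun i => (hl i).1) M hM)
  have s2 : Gw GG W ≤ Gw GG (Wp S M') := gw_mono fun δ h => nat (hW h) fun x _ => hP δ h x
  exact (c.mono s2).trans ((bo_down P T ((normalizer_le_inf _ _).trans t1) fun Q =>
    ih (Nat.card T + 1) T (Nat.lt_succ_self _) t3 _ (gu_tg.comp _ T.subtype_injective) Q).mono
    (le_inf (le_inf (fun _ h => h.1) (s2.trans s1)) (gw_stb hP)))

/-- the Galois-McKay bijection above a central product of leaves. -/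
theorem final4 (p : ℕ) [hp : Fact p.Prime] (hC : Cls p C) (hq : Clo p C)
    (ih : ∀ (F k : Type) [Field F] [Field k] (O R : Subring F) (r : F → k)
      (GG : Subgroup (RingAut F)) (j : NSV.Qbar →+* F), PM p O R r GG →
      (∀ σ ∈ GG, ∃ s ∈ NSV.H p, ∀ x, σ (j x) = j (s x)) →
      ∀ (A : Type) [Ring A] [Algebra F A] (n : ℕ), IH2 F A p GG C n)
    (G : Type) [Group G] [Finite G]
    (B : Set (Subgroup G)) (hj : ∀ g : G, ∀ S ∈ B, S.map (MulAut.conj g).toMonoidHom ∈ B)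
    (hc : ∀ S ∈ B, ∀ T ∈ B, S ≠ T → ∀ x ∈ S, ∀ y ∈ T, x * y = y * x)
    (hl : ∀ (F k : Type) [Field F] [Field k] (O R : Subring F) (r : F → k)
      (GG : Subgroup (RingAut F)), PM p O R r GG → ∀ S ∈ B, Leaf p GG C S)
    (n : ℕ) (s : ℕ → Subgroup G) (h0 : s 0 = sSup B) (hn : s n = ⊤)
    (h : ∀ i < n, s i ≤ s (i + 1) ∧ ∃ (H : Type) (_ : Group H) (f : s (i + 1) →* H),
      Surjective f ∧ f.ker = (s i).subgroupOf (s (i + 1)) ∧ C H) (P : Sylow p G) :
    ∃ f : NSV.IrrP p G ≃ NSV.IrrP p (normalizer (P : Set G)),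
      ∀ γ : MulAut G, (∀ x, γ x ∈ P ↔ x ∈ P) → (∀ S ∈ B, S.map γ.toMonoidHom ∈ B) →
        ∀ σ ∈ NSV.H0 p, ∀ θ θ' : NSV.IrrP p G, (∀ x, θ'.1 x = σ (θ.1 (γ x))) →
          ∀ m m' : normalizer (P : Set G), (m' : G) = γ m → (f θ').1 m = σ ((f θ).1 m') := by
  obtain ⟨F, k, _, _, O, R, r, GG, j, hs, h1, h2⟩ := exists_sys p hp.out
  have := hs.charF
  have := hs.algF
  rcases B.eq_empty_or_nonempty with rfl | hB
  · have hG := cls_up hC n s h (by rw [h0, sSup_empty]; exact cls_triv hC)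
    rw [hn] at hG
    obtain ⟨f, hf⟩ := fin_of j h1 h2 G P (ih F k O R r GG j hs h1 _ (Nat.card G + 1) G
      (Nat.lt_succ_self _) (hC.iso _ _ topEquiv hG) _ gu_tg P)
    exact ⟨f, fun γ a _ => hf γ a⟩
  have := hB.to_subtype
  have := Fintype.ofFinite B
  have wp {γ : MulAut G} (a : ∀ S ∈ B, S.map γ.toMonoidHom ∈ B) :
      γ ∈ Wp (Subtype.val : B → Subgroup G) Subtype.val :=
    wp_of Subtype.val_injective fun i => ⟨⟨_, a i i.2⟩, (bo_map γ).1 rfl, (bo_map γ).1 rfl⟩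
  rw [sSup_eq_iSup'] at h0
  have hN : (⨆ i : B, i.1).Normal := ⟨fun x hx g => (wp_sup (wp (hj g)) x).2 hx⟩
  have hP : ∀ δ ∈ Wp (Subtype.val : B → Subgroup G) Subtype.val ⊓
      Wp (fun _ : Unit => (P : Subgroup G)) fun _ => P, ∀ x, δ x ∈ P ↔ x ∈ P :=
    fun δ ⟨_, _, a⟩ x => (a () x).1
  obtain ⟨f, hf⟩ := fin_w j h1 h2 G _ _ (fun δ a => (norm_stb P δ).2 (hP δ a))
    (bo_main (I := B) (S := Subtype.val) hC hq
      (fun i j a x y hx hy => hc i i.2 j j.2 (Subtype.val_injective.ne a) x hx y hy)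
      Subtype.val_injective (fun i => hl F k O R r GG hs i i.2) (fun g => wp (hj g))
      (fun T a b => by
        have := cls_cut hC n s h (T := T)
          (fun x => h0 ▸ mem_sup_of_normal_right.1 (a.ge (mem_top x))) (h0 ▸ b)
        rwa [hn, inf_top_eq] at this)
      (ih F k O R r GG j hs h1 _) P inf_le_left hP)
  exact ⟨f, fun γ a b => hf γ ⟨wp b, 1, fun _ x => ⟨a x, a x⟩⟩⟩

end Pool.Agent.Lib.MP_1ae3da_al.CT
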