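import Pool.Agent.Lib.MP_1ae3da_al.C2.Bo0
import Pool.Agent.Lib.MP_1ae3da_al.C2.Bo4
import Pool.Agent.Lib.MP_1ae3da_al.Z.Ml
import Pool.Agent.Lib.MP_1ae3da_al.Z.BN
import Pool.Agent.Lib.MP_1ae3da_al.Z.SL3

/-! The leaves: split `BN`-pairs and central quotients of special linear groups. -/

namespace Pool.Agent.Lib.MP_1ae3da_al.CT

open scoped commutatorElement in
open Matrix Matrix.SpecialLinearGroup in
theorem sl_perfect {ι K : Type} [Fintype ι] [DecidableEq ι] [Nontrivial ι] [Field K] {a : K}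
    (ha : a ≠ 0) (h2 : a ^ 2 ≠ 1) : commutator (SpecialLinearGroup ι K) = ⊤ := by
  have ht (i j : ι) (h : i ≠ j) (c : K) :
      transvection h c ∈ commutator (SpecialLinearGroup ι K) := by
    have e : diag2n h a ha * transvection h (c / (a ^ 2 - 1)) =
        transvection h (c / (a ^ 2 - 1) * a ^ 2) * diag2n h a ha := by
      ext k l
      simp only [coe_mul, transvection_coe, diag2n_coe, diagonal_mul, mul_diagonal, Matrix.add_apply,
        one_apply, single_apply]
      by_cases h1 : k = l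
      · subst h1
        by_cases h3 : i = k ∧ j = k
        · exact absurd (h3.1.trans h3.2.symm) h
        · simp [h3]
      · by_cases h3 : i = k ∧ j = l
        · obtain ⟨rfl, rfl⟩ := h3
          simp [h, h.symm]
          field_simp
        · simp [h1, h3]
    have e2 : transvection h c = ⁅diag2n h a ha, transvection h (c / (a ^ 2 - 1))⁆ := by
      rw [commutatorElement_def, e, mul_inv_cancel_right, transvection_inv, ← transvection_add]
      congr 1
      have := sub_ne_zero.2 h2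
      field_simp
      ring
    rw [e2]
    exact Subgroup.commutator_mem_commutator (Subgroup.mem_top _) (Subgroup.mem_top _)
  refine eq_top_iff.2 fun M _ => diagonal_transvection_induction' (· ∈ _) M
    (fun i j h c hc => ?_) ht fun _ _ => mul_mem
  have e : diag2n h c hc = transvection h c * transvection h.symm (-c⁻¹) * transvection h c *
      transvection h (-1) * transvection h.symm 1 * transvection h (-1) := by
    have e1 : (diag2n h c hc).1 = 1 + single i i (c - 1) + single j j (c⁻¹ - 1) := by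
      ext k l
      simp only [diag2n_coe, diagonal_apply, Matrix.add_apply, one_apply, single_apply]
      by_cases h1 : k = l
      · subst h1
        by_cases h3 : k = i
        · subst h3; simp [h.symm]
        · by_cases h4 : k = j
          · subst h4; simp [h3, Ne.symm h3]
          · simp [h3, h4, Ne.symm h3, Ne.symm h4]
      · have h5 (m : ι) : ¬ (m = k ∧ m = l) := fun x => h1 (x.1.symm.trans x.2)
        simp [h1, h5]
    refine Subtype.ext ?_
    rw [e1]
    simp only [coe_mul, transvection_coe, mul_add, add_mul, one_mul, mul_one, add_zero,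
      single_mul_single_same, single_mul_single_of_ne _ _ _ _ h,
      single_mul_single_of_ne _ _ _ _ h.symm]
    ext k l
    simp only [Matrix.add_apply, single_apply]
    split_ifs <;> field_simp <;> ring
  rw [e]
  exact mul_mem (mul_mem (mul_mem (mul_mem (mul_mem (ht _ _ _ _) (ht _ _ _ _)) (ht _ _ _ _))
    (ht _ _ _ _)) (ht _ _ _ _)) (ht _ _ _ _)

open Function Subgroup Pool.Agent.Lib.McK

variable {p : ℕ} [hp : Fact p.Prime] (hp2 : p ≠ 2)

theorem cls_comm {C : ∀ (G : Type) [Group G], Prop} (hC : Cls p C) {G : Type} [Group G] [Finite G]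
    {A : Subgroup G} (h : ∀ x ∈ A, ∀ y ∈ A, x * y = y * x) : C A := by
  have : Group.IsSolvable A := Group.isSolvable_of_comm fun x y => Subtype.ext (h x x.2 y y.2)
  exact hC.solv hp.out A

include hp2 in
theorem Chain.ser {G : Type} [Group G] [Finite G] {A B : Subgroup G} (h : Chain p A B) :
    ∃ (n : ℕ) (s : ℕ → Subgroup G), s 0 = A ∧ s n = B ∧
      ∀ i < n, s i ≤ s (i + 1) ∧ ∃ (H : Type) (_ : Group H) (f : s (i + 1) →* H),
        Surjective f ∧ f.ker = (s i).subgroupOf (s (i + 1)) ∧ Ser2 p H := by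
  obtain ⟨n, s, h0, hn, h⟩ := h
  refine ⟨n, s, h0, hn, fun i hi => ?_⟩
  obtain ⟨h1, H, _, f, hf, hk, h3⟩ := h i hi
  refine ⟨h1, H, _, f, hf, hk, .bas _ ?_⟩
  rcases h3 with h3 | h3 | ⟨K, _, _, ⟨e⟩⟩
  · exact .inl ⟨Finite.of_surjective f hf, h3⟩
  · exact .inr (.inl h3)
  · exact Bas.psl hp2 K e

variable {F k : Type} [Field F] [Field k] {O R' : Subring F} {r' : F → k}
  {GG : Subgroup (RingAut F)} {C : ∀ (G : Type) [Group G], Prop}

theorem leaf_of {r : ℕ} (hP : PM p O R' r' GG) (hr : r.Prime) (hpr : p ≠ r) {X : Type} [Group X]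
    [Finite X] (hX : commutator X = ⊤) (R : Sylow p X) (U : Sylow r X) (D : Subgroup X)
    (hDR : D ≤ R) (hab : ∀ x ∈ D, ∀ y ∈ D, x * y = y * x)
    (hst : ∀ γ : MulAut X, (∀ x, γ x ∈ R ↔ x ∈ R) → ∀ x, γ x ∈ D ↔ x ∈ D)
    (hDU : D ≤ normalizer (U : Set X))
    (hB : ∀ x, ∃ u ∈ U, ∃ n ∈ normalizer (D : Set X), ∃ v ∈ U, x = u * n * v)
    (hc : ∀ u ∈ U, u ≠ 1 → D.relIndex R ^ 2 < (centralizer {u}).relIndex D)
    (hN : C (normalizer (D : Set X))) : Leaf p GG C X := by
  refine ⟨hX, R, normalizer (D : Set X), fun γ h => (bo_map γ).1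
    (main_map_norm γ D ((bo_map γ).2 (hst γ h))), fun g hg => ?_, hN, fun A _ _ u hu hm =>
      Z.ml_core hP hr hpr hX hu hm R U D hDR hab hst hDU hB hc⟩
  exact mem_normalizer_iff.2 fun x => (Z.ml_stab R hst (MulAut.conj g)
    (fun y => (mem_normalizer_iff.1 hg y).symm) x).symm

include hp2 in
theorem Split.leaf (hP : PM p O R' r' GG) {X : Type} [Group X] [Finite X] (h : Split p X) :
    Leaf p GG (Ser2 p) X := by
  obtain ⟨hX, r, U, N, T, hr, hpr, hB, rfl, hab, hn, hc, hv⟩ := h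
  have : Fact r.Prime := ⟨hr⟩
  have h : SLI.BN p U N := ⟨hpr, hab, hn, hB, hv⟩
  obtain ⟨R, hR⟩ := h.ex_syl
  obtain ⟨n, s, h0, h1, h2⟩ := hc.ser hp2
  exact leaf_of hP hr hpr hX R U h.D (h.le_syl hR)
    (fun x hx y hy => hab x (h.D_le hx) y (h.D_le hy))
    (h.stab R.isPGroup' (h.le_syl hR) hR) (h.D_le.trans inf_le_right)
    (by rw [h.norm_eq]; exact hB) (fun u hu => h.idx_lt R.isPGroup' (h.le_syl hR) hR hu)
    (by
      rw [h.norm_eq, ← h1]
      exact cls_up (ser2_cls hp2) n s h2 (h0 ▸ cls_comm (ser2_cls hp2) hab))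

include hp2 in
theorem TypeA.leaf (hC : Cls p C) (hP : PM p O R' r' GG) {X : Type} [Group X] (h : TypeA p X) :
    Leaf p GG C X := by
  obtain ⟨K, _, _, m, π, hm, hv, hπ, hk⟩ := h
  have := Fintype.ofFinite K
  obtain ⟨r, hr⟩ := CharP.exists K
  have hr' : r.Prime := CharP.char_is_prime K r
  have : Fact r.Prime := ⟨hr'⟩
  have : Finite X := Finite.of_surjective π hπ
  have : Nontrivial (Fin m) := Fin.nontrivial_iff_two_le.2 hm
  have hq : p ∣ Nat.card Kˣ := by
    rw [Nat.card_units]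
    exact dvd_of_one_le_padicValNat (by omega)
  obtain ⟨a, ha⟩ := exists_prime_orderOf_dvd_card' p hq
  have h2 : (a : K) ^ 2 ≠ 1 := fun e => hp2 ((Nat.prime_dvd_prime_iff_eq hp.out Nat.prime_two).1
    (ha ▸ orderOf_dvd_of_pow_eq_one (Units.ext (by simpa using e))))
  rw [Nat.card_eq_fintype_card] at hv
  obtain ⟨U, D, h1, h3, h4, h5, h6, h7, h8, -, f, hf, h9⟩ :=
    SLI.sl_quot K hm r p hp2 hv X π hπ hk default
  exact leaf_of hP hr' h1 (bo_perf π hπ (sl_perfect a.ne_zero h2)) _ U D h3 h4 h5 h6 h7 h8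
    (hC.hom f (cls_comm hC h9) (cls_index hp.out hC _ (by
      rw [MonoidHom.range_eq_top.2 hf, index_top, Nat.dvd_one]; exact hp.out.ne_one)))

theorem final5 (p : ℕ) (hp : p.Prime) (hp2 : p ≠ 2) (G : Type) [Group G] [Finite G]
    (C : Set (Subgroup G)) (hj : ∀ g : G, ∀ S ∈ C, S.map (MulAut.conj g).toMonoidHom ∈ C)
    (hc : ∀ S ∈ C, ∀ T ∈ C, S ≠ T → ∀ x ∈ S, ∀ y ∈ T, x * y = y * x)
    (hl : ∀ S ∈ C, TypeA p S ∨ Split p S) (h : Chain p (sSup C) ⊤) (P : Sylow p G) :
    ∃ f : NSV.IrrP p G ≃ NSV.IrrP p (normalizer (P : Set G)),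
      ∀ γ : MulAut G, (∀ x, γ x ∈ P ↔ x ∈ P) → (∀ S ∈ C, S.map γ.toMonoidHom ∈ C) →
        ∀ σ ∈ NSV.H0 p, ∀ θ θ' : NSV.IrrP p G, (∀ x, θ'.1 x = σ (θ.1 (γ x))) →
          ∀ m m' : normalizer (P : Set G), (m' : G) = γ m → (f θ').1 m = σ ((f θ).1 m') := by
  have : Fact p.Prime := ⟨hp⟩
  obtain ⟨n, s, h0, hn, h⟩ := h.ser hp2
  refine final4 p (ser2_cls hp2) (ser2_clo hp2) (fun F k _ _ O R r GG j hs h1 A _ _ => ?_) G C hj hc
    (fun F k _ _ O R r GG hP S hS =>
      (hl S hS).elim (TypeA.leaf hp2 (ser2_cls hp2) hP) (Split.leaf hp2 hP)) n s h0 hn h P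
  have := hs.charF
  have := hs.algF
  exact main2_ind (ser2_clo hp2) rtc_ok (fun G _ _ u hu L E _ a b c => b1 hs hu L E a b c)
    (fun G I _ _ _ _ u hu S M a b c d e Γ f g i => b2 hs.prime hu S M a b c d e Γ f g i)
    (comp2 hs hp2 j h1)

end Pool.Agent.Lib.MP_1ae3da_al.CT
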