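import Pool.Agent.Lib.MP_1ae3da_al.V.Ch2

/-! The classes of groups in the statement. -/

namespace Pool.Agent.Lib.MP_1ae3da_al.WG

/-- `X` is a quotient of `Y` by a central subgroup. -/
def CQ (Y X : Type) [Group Y] [Group X] : Prop :=
  ∃ π : Y →* X, Function.Surjective π ∧ π.ker ≤ Subgroup.center Y

/-- `X` is a quotient by a central subgroup of `SL_m(q)` with `m ≥ 2`, `v_p(m!) < v_p(q - 1)`, or of
`Sp_2m(q)` with `m ≥ 1`, `v_p(m!) < v_p(q - 1)`, or of `SU_m(q)` with `m ≥ 2`,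
`v_p(⌊m / 2⌋!) < v_p(q - 1)`. -/
def Classic (p : ℕ) (X : Type) [Group X] : Prop :=
  ∃ (K : Type) (_ : Field K) (_ : Finite K) (m : ℕ),
    (2 ≤ m ∧ padicValNat p m.factorial < padicValNat p (Nat.card K - 1) ∧
      CQ (Matrix.SpecialLinearGroup (Fin m) K) X) ∨
    (1 ≤ m ∧ padicValNat p m.factorial < padicValNat p (Nat.card K - 1) ∧
      CQ (Matrix.symplecticGroup (Fin m) K) X) ∨
    ∃ (_ : StarRing K) (q : ℕ), Nat.card K = q ^ 2 ∧ (∀ x : K, star x = x ^ q) ∧ 2 ≤ m ∧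
      padicValNat p (m / 2).factorial < padicValNat p (q - 1) ∧
      CQ (Matrix.specialUnitaryGroup (Fin m) K) X

/-- `X` is perfect and `X = U N U`, where `U` is a Sylow `r`-subgroup for a prime `r ≠ p`,
`T = N ⊓ N_X(U)` is abelian and normal in `N`, `N / T` has a series as in `ChainW`, and
`v_p |N : T| < v_p |T : C_T(u)|` for all `u ≠ 1` in `U`. -/
def SplitW (p : ℕ) (X : Type) [Group X] : Prop :=
  commutator X = ⊤ ∧ ∃ (r : ℕ) (U : Sylow r X) (N T : Subgroup X), r.Prime ∧ p ≠ r ∧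
    (∀ x, ∃ u ∈ U, ∃ n ∈ N, ∃ v ∈ U, x = u * n * v) ∧
    T = N ⊓ Subgroup.normalizer (U : Set X) ∧ (∀ x ∈ T, ∀ y ∈ T, x * y = y * x) ∧
    N ≤ Subgroup.normalizer (T : Set X) ∧ ChainW p T N ∧
    ∀ u ∈ U, u ≠ 1 → padicValNat p (T.relIndex N) <
      padicValNat p ((Subgroup.centralizer {u}).relIndex T)

end Pool.Agent.Lib.MP_1ae3da_al.WG
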