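import Pool.Agent.Lib.MP_1ae3da_al.C2.Bo5
import Pool.Agent.Lib.MP_1ae3da_al.C2.Bo6
import Pool.Agent.Lib.MP_1ae3da_al.Z.Xm
import Pool.Agent.Lib.MP_1ae3da_al.Z.ClP

/-! The leaves, for the weaker bound on the valuations. -/

namespace Pool.Agent.Lib.MP_1ae3da_al.WG

open Function Subgroup Pool.Agent.Lib.McK CT

variable {p : ℕ} [hp : Fact p.Prime] (hp2 : p ≠ 2)
include hp2

variable {F k : Type} [Field F] [Field k] {O R' : Subring F} {r' : F → k}
  {GG : Subgroup (RingAut F)} {C : ∀ (G : Type) [Group G], Prop}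

theorem leaf_of2 {r : ℕ} (hP : PM p O R' r' GG) (hr : r.Prime) (hpr : p ≠ r) {X : Type} [Group X]
    [Finite X] (hX : commutator X = ⊤) (R : Sylow p X) (U : Sylow r X) (D : Subgroup X)
    (hDR : D ≤ R) (hab : ∀ x ∈ D, ∀ y ∈ D, x * y = y * x)
    (hst : ∀ γ : MulAut X, (∀ x, γ x ∈ R ↔ x ∈ R) → ∀ x, γ x ∈ D ↔ x ∈ D)
    (hDU : D ≤ normalizer (U : Set X))
    (hB : ∀ x, ∃ u ∈ U, ∃ n ∈ normalizer (D : Set X), ∃ v ∈ U, x = u * n * v)
    (hc : ∀ u ∈ U, u ≠ 1 → D.relIndex R < (centralizer {u}).relIndex D)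
    (hN : C (normalizer (D : Set X))) : Leaf p GG C X := by
  refine ⟨hX, R, normalizer (D : Set X), fun γ h => (bo_map γ).1
    (main_map_norm γ D ((bo_map γ).2 (hst γ h))), fun g hg => ?_, hN, fun A _ _ u hu hm =>
      Z.ml_core2 hP hp2 hr hpr hX hu hm R U D hDR hab hst hDU hB hc⟩
  exact mem_normalizer_iff.2 fun x => (Z.ml_stab R hst (MulAut.conj g)
    (fun y => (mem_normalizer_iff.1 hg y).symm) x).symm

theorem leaf_bw (hC : Cls p C) (hP : PM p O R' r' GG) {X : Type} [Group X] [Finite X] {r : ℕ}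
    (hr : r.Prime) (hX : commutator X = ⊤) {U : Sylow r X} {N : Subgroup X} (h : SLI.BW p U N)
    (hN : C (SLI.Tor U N) → C N) : Leaf p GG C X := by
  have : Fact r.Prime := ⟨hr⟩
  obtain ⟨R, hR⟩ := h.ex_syl
  exact leaf_of2 hp2 hP hr h.ne hX R U h.D (h.le_syl hR)
    (fun x hx y hy => h.ab x (h.D_le hx) y (h.D_le hy))
    (h.stab R.isPGroup' (h.le_syl hR) hR) (h.D_le.trans inf_le_right)
    (by rw [h.norm_eq]; exact h.bru) (fun u hu => h.idx_lt R.isPGroup' (h.le_syl hR) hR hu)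
    (by rw [h.norm_eq]; exact hN (cls_comm hC h.ab))

theorem leaf_pack (hC : Cls p C) (hP : PM p O R' r' GG) {X : Type} [Group X] [Finite X] {r : ℕ}
    (hr : r.Prime) (hX : commutator X = ⊤) {R : Sylow p X} {U : Sylow r X} {D : Subgroup X}
    (h : SLI.Pack p r R U D) {l : ℕ} (g : normalizer (D : Set X) →* Equiv.Perm (Fin l))
    (hg : Surjective g) (hk : C g.ker) : Leaf p GG C X := by
  obtain ⟨h1, h3, h4, h5, h6, h7, h8, -⟩ := h
  exact leaf_of2 hp2 hP hr h1 hX _ U D h3 h4 h5 h6 h7 h8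
    (hC.hom g hk (cls_index hp.out hC _ (by
      rw [MonoidHom.range_eq_top.2 hg, index_top, Nat.dvd_one]; exact hp.out.ne_one)))

theorem Classic.leaf (hC : Cls p C) (hP : PM p O R' r' GG) {X : Type} [Group X] [Finite X]
    (h : Classic p X) : Leaf p GG C X := by
  obtain ⟨K, _, _, m, h⟩ := h
  have := Fintype.ofFinite K
  obtain ⟨r, hr⟩ := CharP.exists K
  have hr' : r.Prime := CharP.char_is_prime K r
  have : Fact r.Prime := ⟨hr'⟩
  rw [Nat.card_eq_fintype_card] at h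
  rcases h with ⟨hm, hv, π, hπ, hk⟩ | ⟨hm, hv, π, hπ, hk⟩ | ⟨_, q, hq, hs, hm, hv, π, hπ, hk⟩
  · have : Nontrivial (Fin m) := Fin.nontrivial_iff_two_le.2 hm
    have hq : p ∣ Nat.card Kˣ := by
      rw [Nat.card_units, Nat.card_eq_fintype_card]
      exact dvd_of_one_le_padicValNat (by omega)
    obtain ⟨a, ha⟩ := exists_prime_orderOf_dvd_card' p hq
    have h2 : (a : K) ^ 2 ≠ 1 := fun e => hp2 ((Nat.prime_dvd_prime_iff_eq hp.out Nat.prime_two).1
      (ha ▸ orderOf_dvd_of_pow_eq_one (Units.ext (by simpa using e))))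
    obtain ⟨U, D, h1, f, hf, h9⟩ := SLI.sl_quot2 K hm r p hp2 hv X π hπ hk default
    exact leaf_pack hp2 hC hP hr' (bo_perf π hπ (sl_perfect a.ne_zero h2)) h1 f hf (cls_comm hC h9)
  · obtain ⟨U, D, h1, l, f, hf, h9⟩ := SLI.sp_quot K hm r p hp2 hv X π hπ hk default
    exact leaf_pack hp2 hC hP hr' (bo_perf π hπ (SLI.sp_perf K hm p hp2 hv)) h1 f hf
      (hC.solv hp.out _)
  · obtain ⟨U, D, h1, l, f, hf, h9⟩ := SLI.su_quot K hq hs hm r p hp2 hv X π hπ hk default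
    exact leaf_pack hp2 hC hP hr' (bo_perf π hπ (SLI.su_perf K hq hs hm p hp2 hv)) h1 f hf
      (hC.solv hp.out _)

end Pool.Agent.Lib.MP_1ae3da_al.WG
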