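import Pool.Agent.Lib.MP_1ae3da_al.C2.Bo7
import Pool.Agent.Lib.MP_1ae3da_al.V.Fin

/-! The Galois-McKay bijection for the largest class. -/

namespace Pool.Agent.Lib.MP_1ae3da_al.WG

open Function Subgroup Pool.Agent.Lib.McK CT

theorem SplitW.leaf {p : ℕ} [Fact p.Prime] (hp2 : p ≠ 2) {F k : Type} [Field F] [Field k]
    {O R' : Subring F} {r' : F → k} {GG : Subgroup (RingAut F)} (hP : PM p O R' r' GG)
    {X : Type} [Group X] [Finite X] (h : SplitW p X) : Leaf p GG (Ser4 p) X := by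
  obtain ⟨hX, r, U, N, T, hr, hpr, hB, rfl, hab, hn, hc, hv⟩ := h
  obtain ⟨n, s, h0, h1, h2⟩ := hc.ser hp2
  refine leaf_bw hp2 (ser4_cl hp2).cls hP hr hX (U := U) (N := N) ⟨hpr, hab, hn, hB, hv⟩ fun h => ?_
  rw [← h1]
  exact cls_up (ser4_cl hp2).cls n s h2 (h0 ▸ h)

theorem final7 (p : ℕ) (hp : p.Prime) (hp2 : p ≠ 2) (G : Type) [Group G] [Finite G]
    (C : Set (Subgroup G)) (hj : ∀ g : G, ∀ S ∈ C, S.map (MulAut.conj g).toMonoidHom ∈ C)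
    (hc : ∀ S ∈ C, ∀ T ∈ C, S ≠ T → ∀ x ∈ S, ∀ y ∈ T, x * y = y * x)
    (hl : ∀ S ∈ C, Classic p S ∨ SplitW p S) (h : ChainW p (sSup C) ⊤) (P : Sylow p G) :
    ∃ f : NSV.IrrP p G ≃ NSV.IrrP p (normalizer (P : Set G)),
      ∀ γ : MulAut G, (∀ x, γ x ∈ P ↔ x ∈ P) → (∀ S ∈ C, S.map γ.toMonoidHom ∈ C) →
        ∀ σ ∈ NSV.H0 p, ∀ θ θ' : NSV.IrrP p G, (∀ x, θ'.1 x = σ (θ.1 (γ x))) →
          ∀ m m' : normalizer (P : Set G), (m' : G) = γ m → (f θ').1 m = σ ((f θ).1 m') := by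
  have : Fact p.Prime := ⟨hp⟩
  obtain ⟨n, s, h0, hn, h⟩ := h.ser hp2
  exact final4 p (ser4_cl hp2).cls (ser4_clo hp2)
    (fun F k _ _ O R r GG j hs h1 A _ _ => ih4 hs hp2 j h1) G C hj hc
    (fun F k _ _ O R r GG hP S hS =>
      (hl S hS).elim (Classic.leaf hp2 (ser4_cl hp2).cls hP) (SplitW.leaf hp2 hP)) n s h0 hn h P

end Pool.Agent.Lib.MP_1ae3da_al.WG
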