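import Pool.Agent.Lib.MP_1ae3da_al.C.AUce
import Pool.Agent.Lib.MP_1ae3da_al.C.GrT

/-! Perfect central extensions of groups with a cyclic Sylow subgroup. -/

namespace Pool.Agent.Lib.MP_1ae3da_al.CT

open Pool.Agent.Lib.McK

/-- transfer: the kernel meets the Sylow subgroup trivially. -/
theorem cov_one {p : ℕ} [Fact p.Prime] {X S : Type} [Group X] [Group S] [Finite X]
    (hX : commutator X = ⊤) (π : X →* S) (hc : π.ker ≤ Subgroup.center X) (T : Sylow p X)
    (h : IsCyclic ((T : Subgroup X).map π)) {z : X} (hz : π z = 1) (hT : z ∈ (T : Subgroup X)) :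
    z = 1 := by
  have hcomm : IsMulCommutative (T : Subgroup X) :=
    (π.subgroupMap T).isMulCommutative_of_isCyclic_of_ker_le_center fun x hx => by
      rw [Subgroup.mem_center_iff]
      intro y
      have h1 : π x = 1 := congrArg Subtype.val (MonoidHom.mem_ker.mp hx)
      exact Subtype.ext (Subgroup.mem_center_iff.mp (hc h1) y.1)
  open scoped IsMulCommutative in
  have h1 := MonoidHom.transfer_eq_pow (MonoidHom.id (T : Subgroup X)) z fun k g _ => by
    rw [mul_assoc, ← Subgroup.mem_center_iff.mp (pow_mem (hc hz) k) g, inv_mul_cancel_left]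
  open scoped IsMulCommutative in
  have h2 : MonoidHom.transfer (MonoidHom.id (T : Subgroup X)) z = 1 :=
    Abelianization.commutator_subset_ker _ (hX ▸ Subgroup.mem_top _)
  rw [h2] at h1
  have h3 : z ^ (T : Subgroup X).index = 1 := (congrArg Subtype.val h1).symm
  obtain ⟨k, hk⟩ := T.isPGroup' ⟨z, hT⟩
  have h4 : z ^ p ^ k = 1 := congrArg Subtype.val hk
  have h5 : Nat.Coprime (p ^ k) (T : Subgroup X).index :=
    ((Fact.out : p.Prime).coprime_iff_not_dvd.mpr T.not_dvd_index).pow_left k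
  exact orderOf_eq_one_iff.mp (Nat.eq_one_of_dvd_coprimes h5 (orderOf_dvd_of_pow_eq_one h4)
    (orderOf_dvd_of_pow_eq_one h3))

/-- a central element killed by `p` lies in every Sylow subgroup. -/
theorem cov_mem {p : ℕ} [Fact p.Prime] {X : Type} [Group X] (T : Sylow p X) {z : X}
    (hz : z ∈ Subgroup.center X) (hp : z ^ p = 1) : z ∈ (T : Subgroup X) := by
  have hn : (Subgroup.zpowers z).Normal := ⟨fun n hn g => by
    have h1 : n ∈ Subgroup.center X := (Subgroup.zpowers_le.mpr hz) hn
    rw [Subgroup.mem_center_iff.mp h1 g, mul_inv_cancel_right]; exact hn⟩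
  have hP : IsPGroup p (Subgroup.zpowers z) := fun x => ⟨1, Subtype.ext (by
    obtain ⟨k, hk⟩ := Subgroup.mem_zpowers_iff.mp x.2
    have : (x : X) ^ p = 1 := by
      rw [← hk, ← zpow_natCast, ← zpow_mul, mul_comm, zpow_mul, zpow_natCast, hp, one_zpow]
    simpa using this)⟩
  exact hP.le_sylow_of_normal T (Subgroup.mem_zpowers z)

/-- `Om` commutes with a map that is injective on the subgroup. -/
theorem cov_map {p : ℕ} {X S : Type} [Group X] [Group S] (π : X →* S) (T : Subgroup X)
    (hi : ∀ z ∈ T, π z = 1 → z = 1) : McK.Om p (T.map π) = (McK.Om p T).map π := by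
  ext s
  constructor
  · rintro ⟨⟨x, hx, rfl⟩, h1, h2⟩
    refine ⟨x, ⟨hx, fun y hy => ?_, hi _ (pow_mem hx p) (by rw [map_pow, h2])⟩, rfl⟩
    have h3 := (h1 (π y) ⟨y, hy, rfl⟩).eq
    have h4 := hi (x * y * (y * x)⁻¹) (mul_mem (mul_mem hx hy) (inv_mem (mul_mem hy hx)))
      (by rw [map_mul, map_inv, map_mul, map_mul, h3, mul_inv_cancel])
    exact mul_inv_eq_one.mp h4
  · rintro ⟨x, ⟨hx, h1, h2⟩, rfl⟩
    refine ⟨⟨x, hx, rfl⟩, ?_, by rw [← map_pow, h2, map_one]⟩
    rintro _ ⟨y, hy, rfl⟩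
    exact (h1 y hy).map π

/-- hint: as `uce_transfer`; then `π` is injective on `T`. -/
theorem cov_cyc {p : ℕ} [Fact p.Prime] {X S : Type} [Group X] [Group S] [Finite X]
    (hX : commutator X = ⊤) (π : X →* S) (hc : π.ker ≤ Subgroup.center X) (T : Sylow p X)
    (h : IsCyclic ((T : Subgroup X).map π)) :
    IsCyclic (T : Subgroup X) ∧
      (Subgroup.normalizer ((McK.Om p ((T : Subgroup X).map π) : Subgroup S) : Set S)).comap π =
        Subgroup.normalizer ((McK.Om p (T : Subgroup X) : Subgroup X) : Set X) := by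
  have hi : ∀ z ∈ (T : Subgroup X), π z = 1 → z = 1 := fun z hz h1 => cov_one hX π hc T h h1 hz
  refine ⟨isCyclic_of_injective (π.subgroupMap T) ?_, ?_⟩
  · rw [injective_iff_map_eq_one]
    intro x hx
    exact Subtype.ext (hi x x.2 (congrArg Subtype.val hx))
  · rw [cov_map π _ hi]
    have key : ∀ y : X, y ^ p = 1 → π y ∈ (McK.Om p (T : Subgroup X)).map π →
        y ∈ McK.Om p (T : Subgroup X) := by
      rintro y hy ⟨k, hk, hky⟩
      have h1 : π (k⁻¹ * y) = 1 := by rw [map_mul, map_inv, hky, inv_mul_cancel]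
      have h2 : k⁻¹ * y ∈ Subgroup.center X := hc h1
      have h3 : Commute k (k⁻¹ * y) := Subgroup.mem_center_iff.mp h2 k
      have h4 : (k⁻¹ * y) ^ p = 1 := by
        have h5 := h3.mul_pow p
        rw [mul_inv_cancel_left, hy, om_pow hk, one_mul] at h5
        exact h5.symm
      have h6 := hi _ (cov_mem T h2 h4) h1
      rw [inv_mul_eq_one] at h6
      exact h6 ▸ hk
    ext x
    rw [Subgroup.mem_comap, Subgroup.mem_normalizer_iff, Subgroup.mem_normalizer_iff]
    constructor
    · intro hx k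
      constructor
      · intro hk
        refine key _ (by rw [conj_pow, om_pow hk]; simp) ?_
        rw [map_mul, map_mul, map_inv]
        exact (hx _).1 ⟨k, hk, rfl⟩
      · intro hk
        have h1 : k ^ p = 1 := by
          have h2 := om_pow hk
          rw [conj_pow] at h2
          simpa using h2
        refine key _ h1 ((hx _).2 ?_)
        rw [← map_inv, ← map_mul, ← map_mul]
        exact ⟨_, hk, rfl⟩
    · intro hx s
      constructor
      · rintro ⟨k, hk, rfl⟩
        exact ⟨_, (hx k).1 hk, by rw [map_mul, map_mul, map_inv]⟩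
      · rintro ⟨k, hk, hs⟩
        refine ⟨x⁻¹ * k * x, (hx _).2 (by simpa [mul_assoc] using hk), ?_⟩
        rw [map_mul, map_mul, map_inv, hs]
        group

/-- a subgroup of order `p` is its own `Om`. -/
theorem cov_om {p : ℕ} [Fact p.Prime] {X : Type} [Group X] [Finite X]
    (h2 : ¬ p ^ 2 ∣ Nat.card X) (T : Sylow p X) : McK.Om p (T : Subgroup X) = T := by
  obtain ⟨n, hn⟩ := T.isPGroup'.exists_card_eq
  have h1 : n ≤ 1 := by
    by_contra h3
    exact h2 ((pow_dvd_pow p (by omega)).trans (hn ▸ Subgroup.card_subgroup_dvd_card _))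
  have h3 : Nat.card (T : Subgroup X) ∣ p := by
    rw [hn]; simpa using pow_dvd_pow p h1
  have h4 : IsCyclic (T : Subgroup X) := isCyclic_of_card_dvd_prime h3
  refine le_antisymm (om_le _) fun x hx => ⟨hx, fun y hy => ?_, ?_⟩
  · exact congrArg Subtype.val (h4.isMulCommutative.is_comm.comm (⟨x, hx⟩ : (T : Subgroup X)) ⟨y, hy⟩)
  · have h5 : (⟨x, hx⟩ : (T : Subgroup X)) ^ p = 1 :=
      orderOf_dvd_iff_pow_eq_one.mp ((orderOf_dvd_natCard _).trans h3)
    exact congrArg Subtype.val h5

end Pool.Agent.Lib.MP_1ae3da_al.CT
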