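import Pool.Agent.Lib.MP_1ae3da_al.C2.Main

/-! The local subgroup of a component: the subgroup of order `p` of a cyclic Sylow subgroup, the
Sylow subgroup itself otherwise. -/

namespace Pool.Agent.Lib.MP_1ae3da_al.CT

open Pool.Agent.Lib.McK

open scoped Classical in
/-- the chosen subgroup of `Q`. -/
noncomputable def RtC (p : ℕ) (G : Type) [Group G] (Q : Subgroup G) : Subgroup G :=
  if IsCyclic Q then McK.Om p Q else Q

variable {p : ℕ}

theorem rtc_pos {G : Type} [Group G] {Q : Subgroup G} (h : IsCyclic Q) :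
    RtC p G Q = McK.Om p Q := if_pos h

theorem rtc_neg {G : Type} [Group G] {Q : Subgroup G} (h : ¬ IsCyclic Q) : RtC p G Q = Q :=
  if_neg h

theorem rtc_om {G H : Type} [Group G] [Group H] (f : G →* H) (hf : Function.Injective f)
    (Q : Subgroup G) : McK.Om p (Q.map f) = (McK.Om p Q).map f := by
  ext x
  constructor
  · rintro ⟨⟨y, hy, rfl⟩, h2, h3⟩
    refine ⟨y, ⟨hy, fun z hz => hf ?_, hf ?_⟩, rfl⟩
    · rw [map_mul, map_mul]
      exact h2 _ ⟨z, hz, rfl⟩
    · rw [map_pow, h3, map_one]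
  · rintro ⟨y, ⟨h1, h2, h3⟩, rfl⟩
    refine ⟨⟨y, h1, rfl⟩, ?_, by rw [← map_pow, h3, map_one]⟩
    rintro _ ⟨z, hz, rfl⟩
    exact (h2 z hz).map f

theorem rtc_ok [Fact p.Prime] : RtOk p (RtC p) where
  le := fun G _ Q => by
    by_cases h : IsCyclic Q
    · rw [rtc_pos h]; exact om_le Q
    · rw [rtc_neg h]
  ne := fun G _ _ Q h1 h2 => by
    by_cases h : IsCyclic Q
    · rw [rtc_pos h]; exact om_ne_bot h1 h2
    · rwa [rtc_neg h]
  map := fun G H _ _ f hf Q => by
    have e := MulEquiv.isCyclic (Subgroup.equivMapOfInjective Q f hf)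
    by_cases h : IsCyclic Q
    · rw [rtc_pos h, rtc_pos (e.1 h), rtc_om f hf]
    · rw [rtc_neg h, rtc_neg fun h' => h (e.2 h')]

end Pool.Agent.Lib.MP_1ae3da_al.CT
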