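import Pool.Agent.Lib.MP_1ae3da_al.C.SerI
import Pool.Agent.Lib.MP_1ae3da_al.C.GrA
import Pool.Agent.Lib.MP_1ae3da_al.S.Gp
import Pool.Agent.Lib.MP_1ae3da_al.S.Mult

/-! Subgroups of index prime to `p` of `PSL2(K)`, `K` finite of characteristic `p`; Sylow subgroups
in the other odd characteristics; solvable groups lie in every closed class. -/

namespace Pool.Agent.Lib.MP_1ae3da_al.CT

open Matrix Subgroup
open scoped MatrixGroups

theorem psl_top {K : Type} [Field K] (H : Subgroup SL(2, K)) (hU : gpU K ≤ H) :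
    H = ⊤ ∨ H ≤ gpB K := by
  by_cases h : H ≤ gpB K
  · exact .inr h
  left
  obtain ⟨g, hg, hc⟩ := SetLike.not_le_iff_exists.1 h
  rw [gp_memB] at hc
  have hx : ∀ s, autX s ∈ H := fun s => hU (gp_memU.2 ⟨s, rfl⟩)
  have hk := H.mul_mem (hx (-(g.1 0 0 / g.1 1 0))) hg
  have e0 : (autX (-(g.1 0 0 / g.1 1 0)) * g).1 0 0 = 0 := by
    rw [aut_mul]
    simp [autX_val, mul_apply, Fin.sum_univ_two, hc]
  have e1 : (autX (-(g.1 0 0 / g.1 1 0)) * g).1 1 0 = g.1 1 0 := by
    rw [aut_mul]
    simp [autX_val, mul_apply, Fin.sum_univ_two]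
  refine eq_top_iff.2 fun x _ => aut_ind (· ∈ H) hx (fun t => ?_) (fun _ _ => H.mul_mem) x
  have h1 := H.mul_mem (H.mul_mem hk (hx (-(t / g.1 1 0 ^ 2)))) (H.inv_mem hk)
  convert h1 using 1
  apply Subtype.ext
  rw [aut_conjW, e0, e1, autY_val]
  simp [hc]

theorem psl_solvB (K : Type) [Field K] : Group.IsSolvable (gpB K) := by
  have h0 : ∀ g : gpB K, g.1.1 0 0 ≠ 0 := fun g h => by
    have := aut_det g.1
    rw [h, gp_memB.1 g.2] at this
    simp at this
  let χ : gpB K →* Kˣ := MonoidHom.mk' (fun g => Units.mk0 _ (h0 g)) fun a b => Units.ext (by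
    simp [mul_apply, Fin.sum_univ_two, gp_memB.1 b.2])
  refine Group.isSolvable_of_ker_le_range
    ((gpX K).codRestrict (gpB K) fun s => gp_U_le ⟨s, rfl⟩) χ fun g hg => ?_
  have h1 : g.1.1 0 0 = 1 := congrArg Units.val (MonoidHom.mem_ker.1 hg)
  have h2 := gp_memB.1 g.2
  have h3 := aut_det g.1
  rw [h1, h2] at h3
  refine ⟨Multiplicative.ofAdd (g.1.1 0 1), Subtype.ext (Subtype.ext ?_)⟩
  change !![1, g.1.1 0 1; 0, 1] = _
  ext i j
  fin_cases i <;> fin_cases j <;> simp_all

theorem psl_sub {p : ℕ} (hp : p.Prime) (K : Type) [Field K] [Finite K] [CharP K p]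
    (H : Subgroup (Matrix.ProjectiveSpecialLinearGroup (Fin 2) K)) (hH : ¬ p ∣ H.index) :
    H = ⊤ ∨ Group.IsSolvable H := by
  have := Fact.mk hp
  have hs := QuotientGroup.mk'_surjective (center SL(2, K))
  obtain ⟨x, hx⟩ := gra_fix (gp_pU (K := K) (p := p)) (H := H.comap (QuotientGroup.mk' _))
    (by rwa [index_comap_of_surjective _ hs])
  let f := (QuotientGroup.mk' (center SL(2, K))).comp (MulAut.conj x⁻¹).toMonoidHom
  have hf : Function.Surjective f := hs.comp (MulAut.conj x⁻¹).surjective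
  rcases psl_top (H.comap f) (fun e he => by simpa [f] using hx e he) with h | h
  · left
    rw [← map_comap_eq_self_of_surjective hf H, h, map_top_of_surjective _ hf]
  · right
    have := psl_solvB K
    have : Group.IsSolvable (H.comap f) :=
      Group.isSolvable_of_isSolvable_injective (inclusion_injective h)
    exact Group.isSolvable_of_surjective (f := f.subgroupComap H)
      (f.subgroupComap_surjective_of_surjective H hf)

theorem psl_small (K : Type) [Field K] [Finite K] (h : Nat.card K < 4) :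
    Nat.card (Matrix.ProjectiveSpecialLinearGroup (Fin 2) K) ∣ 48 := by
  refine (card_quotient_dvd_card _).trans ?_
  rw [gp_card]
  have h5 : 1 < Nat.card K := Finite.one_lt_card
  generalize Nat.card K = q at *
  interval_cases q <;> norm_num

/-- in cross characteristic a cyclic subgroup has index prime to the odd prime `p`. -/
theorem psl_cyc {p : ℕ} (hp : p.Prime) (h2 : p ≠ 2) (K : Type) [Field K] [Finite K]
    (hK : ¬ CharP K p) : ∃ a : SL(2, K), ¬ p ∣ (zpowers a).index := by
  obtain ⟨l, hl⟩ := CharP.exists K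
  have : Fact l.Prime := ⟨CharP.char_is_prime K l⟩
  have := Fintype.ofFinite K
  obtain ⟨n, -, hn⟩ := FiniteField.card K l
  rw [← Nat.card_eq_fintype_card] at hn
  have h1 : ¬ p ∣ Nat.card K := fun h => hK (by
    rw [hn] at h
    rwa [(Nat.prime_dvd_prime_iff_eq hp Fact.out).1 (hp.dvd_of_dvd_pow h)])
  have h5 : 1 < Nat.card K := Finite.one_lt_card
  by_cases h3 : p ∣ Nat.card K + 1
  · obtain ⟨a, -, ha, -⟩ := mult_nonsplit K l
    have h4 := (zpowers a).card_mul_index
    rw [Nat.card_zpowers, ha, mult_card, ← mul_assoc, mul_comm] at h4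
    refine ⟨a, ?_⟩
    rw [Nat.eq_of_mul_eq_mul_right (Nat.succ_pos _) h4]
    intro h
    have h6 := (hp.dvd_mul.1 h).resolve_left h1
    have h7 := Nat.dvd_sub h3 h6
    rw [show Nat.card K + 1 - (Nat.card K - 1) = 2 by omega] at h7
    exact h2 ((Nat.prime_dvd_prime_iff_eq hp Nat.prime_two).1 h7)
  · obtain ⟨a, -, ha, -⟩ := mult_split K
    have h4 := (zpowers a).card_mul_index
    rw [Nat.card_zpowers, ha, mult_card, mul_left_comm] at h4
    refine ⟨a, ?_⟩
    rw [Nat.eq_of_mul_eq_mul_left (by omega) h4]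
    exact fun h => h3 ((hp.dvd_mul.1 h).resolve_left h1)

theorem Cls.solv {p : ℕ} {C : ∀ (G : Type) [Group G], Prop} (hp : p.Prime) (hC : Cls p C)
    (G : Type) [Group G] [Finite G] [Group.IsSolvable G] : C G := by
  have key : ∀ (n : ℕ) (G : Type) [Group G] [Finite G] [Group.IsSolvable G], Nat.card G < n →
      C G := by
    intro n
    induction n with
    | zero => intro G _ _ _ h; omega
    | succ n ih =>
    intro G _ _ _ hn
    by_cases h : ∃ N : Subgroup G, N.Normal ∧ N ≠ ⊥ ∧ N ≠ ⊤
    · obtain ⟨N, _, h1, h2⟩ := h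
      have h3 := N.card_mul_index
      have h4 : 1 < N.index := one_lt_index_of_ne_top h2
      have h5 : 1 < Nat.card N := (one_lt_card_iff_ne_bot N).2 h1
      refine hC.ext G N (ih _ (by nlinarith)) (ih _ ?_)
      change N.index < n
      nlinarith
    refine hC.small G fun h1 => ?_
    have h2 := hp.two_le
    cases subsingleton_or_nontrivial G with
    | inl h3 =>
      rw [Nat.card_of_subsingleton (1 : G), Nat.dvd_one] at h1
      nlinarith
    | inr h3 =>
      have : IsSimpleGroup G := ⟨fun N hN => by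
        by_contra h4
        exact h ⟨N, hN, fun a => h4 (.inl a), fun a => h4 (.inr a)⟩⟩
      have hc := IsSimpleGroup.comm_iff_isSolvable.2 ‹Group.IsSolvable G›
      have h5 : (Nat.card G).Prime :=
        @IsSimpleGroup.prime_card G { ‹Group G› with mul_comm := hc } this
      have h6 := (Nat.prime_dvd_prime_iff_eq hp h5).1 ((dvd_pow_self p two_ne_zero).trans h1)
      rw [← h6] at h1
      have := Nat.le_of_dvd hp.pos h1
      nlinarith
  exact key _ G (Nat.lt_succ_self _)

end Pool.Agent.Lib.MP_1ae3da_al.CT
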