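import Pool.Agent.Lib.MP_1ae3da_al.C.TR

/-! Reduction modulo a normal subgroup, for an arbitrary closed class of groups. -/

namespace Pool.Agent.Lib.MP_1ae3da_al.CT

open Submodule

open Pool.Agent.Lib.McK

/-- the closure properties of a class of groups that the induction uses. -/
structure Clo (p : ℕ) (C : ∀ (G : Type) [Group G], Prop) : Prop where
  sub : ∀ (G : Type) [Group G], C G → ∀ H : Subgroup G, ¬ p ∣ H.index → C H
  nrm : ∀ (G H : Type) [Group G] [Group H], C G → ∀ f : H →* G, Function.Injective f →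
    f.range.Normal → C H
  quot : ∀ (G Q : Type) [Group G] [Group Q], C G → ∀ f : G →* Q, Function.Surjective f → C Q

variable {F A : Type} [Field F] [Ring A] [Algebra F A] {p : ℕ} {GG : Subgroup (RingAut F)}
  {C : ∀ (G : Type) [Group G], Prop}

variable (F A p GG C) in
/-- the induction hypothesis. -/
def IH2 (n : ℕ) : Prop :=
  ∀ (G : Type) [Group G] [Finite G], Nat.card G < n → C G → ∀ (v : G → A), TG F v →
    ∀ P : Sylow p G, MN F p GG v P

/-- the fibre over a `P`-invariant block `e` of `L`. -/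
theorem r2_fibre [IsAlgClosed F] [CharZero F] [Fact p.Prime] (hC : Clo p C) {G : Type} [Group G]
    [Finite G] (hG : C G) (ih : IH2 F A p GG C (Nat.card G))
    {u : G → A} (hu : TG F u) (P : Sylow p G) (L : Subgroup G) [L.Normal] (hL : L ≠ ⊥) {e : A}
    (he : e ∈ IrrP F p (Hm F u L)) (hP : (P : Subgroup G) ≤ St u e) :
    EB (SG GG A ⊓ Stb (Hm F u ⊤) ⊓ Stb (Hm F u P) ⊓ Stb (Hm F u L) ⊓ Fx e)
      {f | f ∈ IrrP F p (Hm F u ⊤) ∧ f * e ≠ 0}
      {f | f ∈ IrrP F p (Hm F u (Subgroup.normalizer (P : Set G) ⊔ L)) ∧ f * e ≠ 0} := by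
  have hp : p.Prime := Fact.out
  have hLS : L ≤ St u e := le_St hu he.1.1
  have hPT : (P : Subgroup G) ≤ Subgroup.normalizer (P : Set G) ⊔ L :=
    le_sup_of_le_left (Subgroup.le_normalizer (H := (P : Subgroup G)))
  have h1 := cl_eb (GG := GG) hp hu (le_top : L ≤ ⊤) (r1_nrm L ⊤) he (trg_rel P hP le_top)
    (Γ := SG GG A ⊓ Stb (Hm F u ⊤) ⊓ Stb (Hm F u P) ⊓ Stb (Hm F u L) ⊓ Fx e)
    (fun γ hγ => ⟨hγ.1.1.1, hγ.2⟩)
  have h2 := cl_eb (GG := GG) hp hu (le_sup_right : L ≤ Subgroup.normalizer (P : Set G) ⊔ L)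
    (r1_nrm L _) he (trg_rel P hP hPT)
    (Γ := SG GG A ⊓ Stb (Hm F u ⊤) ⊓ Stb (Hm F u P) ⊓ Stb (Hm F u L) ⊓ Fx e)
    (fun γ hγ => ⟨⟨hγ.1.1.1.1, (r1_stbT hu hγ.1).1⟩, hγ.2⟩)
  refine (h1.trans ?_).trans h2.symm
  obtain ⟨v, hv, -, -, hz⟩ := cz_family hu (Nat.cast_ne_zero.2 Nat.card_pos.ne') hLS he.1 le_rfl
  have hs := QuotientGroup.mk'_surjective (L.subgroupOf (St u e))
  have hS : C (St u e) :=
    hC.sub G hG _ fun h => P.not_dvd_index (h.trans (Subgroup.index_dvd_of_le hP))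
  have h3 := ih _ (trg_card hL hLS) (hC.quot _ _ hS _ hs) v hv
    ((P.subtype hP).mapSurjective hs)
  have z1 : Cz F (Hm F u (St u e)) (Hm F u L) e = Hm F v ⊤ := by
    rw [hz _ hLS le_rfl, Subgroup.subgroupOf_self, Subgroup.map_top_of_surjective _ hs]
  have z2 : Cz F (Hm F u (((P : Subgroup G) ⊔ L) ⊓ St u e)) (Hm F u L) e =
      Hm F v ((P.subtype hP).mapSurjective hs : Sylow p _) := by
    rw [hz _ (le_inf le_sup_right hLS) inf_le_right, trg_sup hLS]; rfl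
  have z3 : Cz F (Hm F u ((Subgroup.normalizer (P : Set G) ⊔ L) ⊓ St u e)) (Hm F u L) e =
      Hm F v (Subgroup.normalizer ((P.subtype hP).mapSurjective hs : Set _)) := by
    rw [hz _ (le_inf le_sup_right hLS) inf_le_right, trg_sup hLS, trg_map hs, trg_sub]
  rw [top_inf_eq, z1, z3]
  refine EB.mono h3 fun γ hγ => ?_
  have h4 := stb_St hu hγ.1.1.1.1 hγ.1.1.1.2 (r1_top he.1.1.1) hγ.2
  refine ⟨⟨hγ.1.1.1.1, ?_⟩, ?_⟩
  · rw [← z1]; exact cz_stb hγ.1.1.1.1 h4 hγ.1.2 hγ.2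
  · rw [← z2]; exact cz_stb hγ.1.1.1.1 (stb_inf hu (r1_stbT hu hγ.1).2 h4) hγ.1.2 hγ.2

/-- reduction modulo the normal subgroup `L`. -/
theorem r2 [IsAlgClosed F] [CharZero F] [Fact p.Prime] (hC : Clo p C) {G : Type} [Group G]
    [Finite G] (hG : C G) (ih : IH2 F A p GG C (Nat.card G))
    {u : G → A} (hu : TG F u) (P : Sylow p G) (L : Subgroup G) [L.Normal] (hL : L ≠ ⊥) :
    EB (SG GG A ⊓ Stb (Hm F u ⊤) ⊓ Stb (Hm F u P) ⊓ Stb (Hm F u L)) (IrrP F p (Hm F u ⊤))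
      (IrrP F p (Hm F u (Subgroup.normalizer (P : Set G) ⊔ L))) := by
  have hPT : (P : Subgroup G) ≤ Subgroup.normalizer (P : Set G) ⊔ L :=
    le_sup_of_le_left (Subgroup.le_normalizer (H := (P : Subgroup G)))
  have hn : ∀ (γ : RingAut A) (a e : A), a * e ≠ 0 → γ a * γ e ≠ 0 := fun γ a e h => by
    rw [← map_mul]; exact (map_ne_zero_iff γ γ.injective).2 h
  refine glue _ _ {e | e ∈ IrrP F p (Hm F u L) ∧ (P : Subgroup G) ≤ St u e}
    (fun a e => a * e ≠ 0) (fun a e => a * e ≠ 0)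
    (fun γ hγ a ha => (irrP_stb hγ.1.1.1 hγ.1.1.2).2 ha)
    (fun γ hγ a ha => (irrP_stb hγ.1.1.1 (r1_stbT hu hγ).1).2 ha) ?_
    (fun γ _ a _ e _ => hn γ a e) (fun γ _ a _ e _ => hn γ a e)
    (fun a ha => r1_exists hu P le_top le_top ha) (fun a ha => r1_exists hu P hPT le_sup_right ha)
    (fun a ha e he e' he' h h' => r1_trans hu P le_top ha.1 he.1.1 he'.1.1 h h' he.2 he'.2)
    (fun a ha e he e' he' h h' => r1_trans hu P le_sup_right ha.1 he.1.1 he'.1.1 h h' he.2 he'.2)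
    (fun e he => r2_fibre hC hG ih hu P L hL he.1 he.2)
  intro γ hγ e he
  refine ⟨(irrP_stb hγ.1.1.1 hγ.2).2 he.1, ?_⟩
  obtain ⟨φ, h1, -, -, h2⟩ := r1_aut hu hγ
  rw [h2 e (r1_top he.1.1.1.1), ← h1]
  exact Subgroup.map_mono he.2

end Pool.Agent.Lib.MP_1ae3da_al.CT
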