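import Pool.Agent.Lib.MP_1ae3da_al.C.SerB
import Pool.Agent.Lib.MP_1ae3da_al.C2.TR
import Pool.Agent.Lib.MP_1ae3da_al.C2.Psl

/-! The class of finite groups built by extensions from groups with cyclic Sylow `p`-subgroups,
alternating groups and groups `PSL2(K)`, `K` finite of characteristic `p`. -/

namespace Pool.Agent.Lib.MP_1ae3da_al.CT

open Function Pool.Agent.Lib.McK

/-- finite with cyclic Sylow `p`-subgroups. -/
def CycS (p : ℕ) (G : Type) [Group G] : Prop :=
  Finite G ∧ ∀ Q : Sylow p G, IsCyclic (Q : Subgroup G)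

/-- the three kinds of factors. -/
def Bas (p : ℕ) (G : Type) [Group G] : Prop :=
  CycS p G ∨ (∃ n, Nonempty (G ≃* alternatingGroup (Fin n))) ∨
    ∃ (K : Type) (_ : Field K) (_ : Finite K) (_ : CharP K p),
      Nonempty (G ≃* Matrix.ProjectiveSpecialLinearGroup (Fin 2) K)

/-- the closure under extensions. -/
inductive Ser2 (p : ℕ) : (G : Type) → [Group G] → Prop
  | bas (G : Type) [Group G] (h : Bas p G) : Ser2 p G
  | ext (G : Type) [Group G] (N : Subgroup G) [N.Normal] (h1 : Ser2 p N) (h2 : Ser2 p (G ⧸ N)) :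
      Ser2 p G

variable {p : ℕ}

theorem CycS.inj [Fact p.Prime] {G H : Type} [Group G] [Group H] (h : CycS p G) (f : H →* G)
    (hf : Injective f) : CycS p H := by
  have := h.1
  refine ⟨Finite.of_injective f hf, fun Q => ?_⟩
  obtain ⟨R, hR⟩ := (Q.isPGroup'.map f).exists_le_sylow
  have := h.2 R
  have h1 : IsCyclic ((Q : Subgroup H).map f) := Subgroup.isCyclic_of_le hR
  exact (MulEquiv.isCyclic (Subgroup.equivMapOfInjective _ f hf)).2 h1

theorem CycS.surj [Fact p.Prime] {G H : Type} [Group G] [Group H] (h : CycS p G) (f : G →* H)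
    (hf : Surjective f) : CycS p H := by
  have := h.1
  refine ⟨Finite.of_surjective f hf, fun Q => ?_⟩
  obtain ⟨R, rfl⟩ := Sylow.mapSurjective_surjective hf p Q
  have := h.2 R
  exact isCyclic_of_surjective _ (f.subgroupMap_surjective (R : Subgroup G))

theorem CycS.small [hp : Fact p.Prime] {G : Type} [Group G] (h : ¬ p ^ 2 ∣ Nat.card G) :
    CycS p G := by
  have : Finite G := Nat.finite_of_card_ne_zero fun h0 => h (h0 ▸ dvd_zero _)
  refine ⟨this, fun Q => ?_⟩
  obtain ⟨n, hn⟩ := Q.isPGroup'.exists_card_eq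
  have h1 : n ≤ 1 := by
    by_contra h2
    exact h ((pow_dvd_pow p (by omega)).trans (hn ▸ Subgroup.card_subgroup_dvd_card _))
  refine isCyclic_of_card_dvd_prime (p := p) ?_
  rw [hn]
  simpa using pow_dvd_pow p h1

theorem CycS.of_dvd [hp : Fact p.Prime] (h2 : p ≠ 2) {G : Type} [Group G]
    (h : Nat.card G ∣ 48) : CycS p G := by
  refine CycS.small fun h1 => ?_
  have h3 := h1.trans h
  have h5 : p ^ 2 ≤ 48 := Nat.le_of_dvd (by norm_num) h3
  have h4 : p ≤ 6 := by nlinarith
  have h6 := hp.out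
  interval_cases p <;> simp_all (config := {decide := true})

theorem CycS.of_zpowers [Fact p.Prime] {G : Type} [Group G] [Finite G] (a : G)
    (h : ¬ p ∣ (Subgroup.zpowers a).index) : CycS p G := by
  refine ⟨inferInstance, fun Q => ?_⟩
  obtain ⟨x, hx⟩ := gra_fix Q.isPGroup' h
  refine isCyclic_of_injective (((MulAut.conj x⁻¹).toMonoidHom.comp
    (Q : Subgroup G).subtype).codRestrict (Subgroup.zpowers a) fun e => by simpa using hx e e.2) ?_
  intro b c hbc
  exact Subtype.ext ((MulAut.conj x⁻¹).injective (congrArg Subtype.val hbc))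

/-- `PSL2(K)` for every finite field `K`. -/
theorem Bas.psl [hp : Fact p.Prime] (h2 : p ≠ 2) {G : Type} [Group G] (K : Type) [Field K]
    [Finite K] (e : G ≃* Matrix.ProjectiveSpecialLinearGroup (Fin 2) K) : Bas p G := by
  by_cases hK : CharP K p
  · exact .inr (.inr ⟨K, _, inferInstance, hK, ⟨e⟩⟩)
  · obtain ⟨a, ha⟩ := psl_cyc hp.out h2 K hK
    exact .inl ((CycS.of_zpowers a ha).surj (e.symm.toMonoidHom.comp (QuotientGroup.mk' _))
      (e.symm.surjective.comp (QuotientGroup.mk'_surjective _)))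

theorem Bas.finite {G : Type} [Group G] (h : Bas p G) : Finite G := by
  rcases h with h | ⟨n, ⟨e⟩⟩ | ⟨K, _, _, _, ⟨e⟩⟩
  · exact h.1
  · exact Finite.of_equiv _ e.toEquiv.symm
  · exact Finite.of_equiv _ e.toEquiv.symm

theorem Bas.congr [Fact p.Prime] {G H : Type} [Group G] [Group H] (h : Bas p G) (f : G ≃* H) :
    Bas p H := by
  rcases h with h | ⟨n, ⟨e⟩⟩ | ⟨K, _, _, _, ⟨e⟩⟩
  · exact .inl (h.surj f.toMonoidHom f.surjective)
  · exact .inr (.inl ⟨n, ⟨f.symm.trans e⟩⟩)
  · exact .inr (.inr ⟨K, _, inferInstance, inferInstance, ⟨f.symm.trans e⟩⟩)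

theorem Bas.cases [Fact p.Prime] (h2 : p ≠ 2) {G : Type} [Group G] (h : Bas p G) :
    CycS p G ∨ (∃ n, 5 ≤ n ∧ Nonempty (G ≃* alternatingGroup (Fin n))) ∨
      ∃ (K : Type) (_ : Field K) (_ : Finite K) (_ : CharP K p), 4 ≤ Nat.card K ∧
        Nonempty (G ≃* Matrix.ProjectiveSpecialLinearGroup (Fin 2) K) := by
  rcases h with h | ⟨n, ⟨e⟩⟩ | ⟨K, _, _, _, ⟨e⟩⟩
  · exact .inl h
  · by_cases hn : n < 5
    · refine .inl (CycS.of_dvd h2 ?_)
      rw [Nat.card_congr e.toEquiv]
      exact (card_alt_dvd hn).trans (by norm_num)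
    · exact .inr (.inl ⟨n, by omega, ⟨e⟩⟩)
  · by_cases hn : Nat.card K < 4
    · refine .inl (CycS.of_dvd h2 ?_)
      rw [Nat.card_congr e.toEquiv]
      exact psl_small K hn
    · exact .inr (.inr ⟨K, _, inferInstance, inferInstance, by omega, ⟨e⟩⟩)

theorem Bas.simple [Fact p.Prime] (h2 : p ≠ 2) {G : Type} [Group G] (h : Bas p G) :
    CycS p G ∨ IsSimpleGroup G := by
  rcases h.cases h2 with h | ⟨n, hn, ⟨e⟩⟩ | ⟨K, _, _, _, hn, ⟨e⟩⟩
  · exact .inl h
  · have : IsSimpleGroup (alternatingGroup (Fin n)) :=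
      alternatingGroup.isSimpleGroup (by rw [Nat.card_fin]; omega)
    exact .inr e.isSimpleGroup
  · have := Matrix.ProjectiveSpecialLinearGroup.rank_two_simple hn
    exact .inr e.isSimpleGroup

theorem Bas.triv [Fact p.Prime] (h2 : p ≠ 2) {G : Type} [Group G] [Subsingleton G] : Bas p G :=
  .inl (CycS.of_dvd h2 (by rw [Nat.card_of_subsingleton (1 : G)]; exact one_dvd _))

theorem Bas.quot [Fact p.Prime] (h2 : p ≠ 2) {G Q : Type} [Group G] [Group Q] (h : Bas p G)
    (f : G →* Q) (hf : Surjective f) : Bas p Q := by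
  rcases h.simple h2 with h1 | h1
  · exact .inl (h1.surj f hf)
  rcases (inferInstance : f.ker.Normal).eq_bot_or_eq_top with hk | hk
  · exact h.congr (MulEquiv.ofBijective f ⟨(MonoidHom.ker_eq_bot_iff f).1 hk, hf⟩)
  · have : Subsingleton Q := ⟨fun a b => by
      obtain ⟨x, rfl⟩ := hf a
      obtain ⟨y, rfl⟩ := hf b
      have hx : x ∈ f.ker := hk ▸ Subgroup.mem_top x
      have hy : y ∈ f.ker := hk ▸ Subgroup.mem_top y
      rw [MonoidHom.mem_ker.1 hx, MonoidHom.mem_ker.1 hy]⟩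
    exact Bas.triv h2

theorem Bas.nrm [Fact p.Prime] (h2 : p ≠ 2) {G H : Type} [Group G] [Group H] (h : Bas p G)
    (f : H →* G) (hf : Injective f) (hN : f.range.Normal) : Bas p H := by
  rcases h.simple h2 with h1 | h1
  · exact .inl (h1.inj f hf)
  rcases hN.eq_bot_or_eq_top with hk | hk
  · have : Subsingleton H := ⟨fun a b => hf (by
      have ha : f a ∈ f.range := ⟨a, rfl⟩
      have hb : f b ∈ f.range := ⟨b, rfl⟩
      rw [hk, Subgroup.mem_bot] at ha hb
      rw [ha, hb])⟩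
    exact Bas.triv h2
  · exact h.congr (MulEquiv.ofBijective f ⟨hf, MonoidHom.range_eq_top.1 hk⟩).symm

theorem Ser2.finite {G : Type} [Group G] (h : Ser2 p G) : Finite G := by
  induction h with
  | bas G h => exact h.finite
  | ext G N h1 h2 i1 i2 =>
    exact Finite.of_equiv _ (Subgroup.groupEquivQuotientProdSubgroup (s := N)).symm

theorem Ser2.quot [Fact p.Prime] (hp2 : p ≠ 2) {G : Type} [Group G] (h : Ser2 p G) :
    ∀ {Q : Type} [Group Q] (f : G →* Q), Surjective f → Ser2 p Q := by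
  induction h with
  | bas G h => exact fun {Q} _ f hf => .bas Q (h.quot hp2 f hf)
  | ext G N h1 h2 i1 i2 =>
    intro Q _ f hf
    have : (N.map f).Normal := Subgroup.Normal.map inferInstance _ hf
    refine .ext Q (N.map f) (i1 (f.subgroupMap N) (f.subgroupMap_surjective N))
      (i2 (QuotientGroup.map N (N.map f) f (Subgroup.le_comap_map f N)) ?_)
    intro q
    obtain ⟨q, rfl⟩ := QuotientGroup.mk_surjective q
    obtain ⟨x, rfl⟩ := hf q
    exact ⟨QuotientGroup.mk x, rfl⟩

theorem Ser2.congr [Fact p.Prime] (hp2 : p ≠ 2) {G H : Type} [Group G] [Group H] (h : Ser2 p G)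
    (e : G ≃* H) : Ser2 p H := h.quot hp2 e.toMonoidHom e.surjective

theorem Ser2.nrm [Fact p.Prime] (hp2 : p ≠ 2) {G : Type} [Group G] (h : Ser2 p G) :
    ∀ {H : Type} [Group H] (f : H →* G), Injective f → f.range.Normal → Ser2 p H := by
  induction h with
  | bas G h => exact fun {H} _ f hf hN => .bas H (h.nrm hp2 f hf hN)
  | ext G N h1 h2 i1 i2 =>
    intro H _ f hf hN
    refine .ext H ((QuotientGroup.mk' N).comp f).ker (i1 (kerTo N f) (kerTo_inj N hf) ?_)
      (Ser2.congr hp2 (i2 (Subgroup.subtype _) (Subgroup.subtype_injective _) ?_)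
        (QuotientGroup.quotientKerEquivRange _).symm)
    · refine ⟨?_⟩
      rintro _ ⟨x, rfl⟩ g
      obtain ⟨y, hy⟩ := hN.conj_mem (f x) ⟨x, rfl⟩ g
      have hm : f y ∈ N := by
        rw [hy]; exact N.mul_mem (N.mul_mem g.2 (kerTo N f x).2) (N.inv_mem g.2)
      exact ⟨⟨y, MonoidHom.mem_ker.2 ((QuotientGroup.eq_one_iff _).2 hm)⟩, Subtype.ext hy⟩
    · rw [Subgroup.range_subtype, MonoidHom.range_comp]
      exact hN.map _ (QuotientGroup.mk'_surjective N)

theorem Ser2.simple [Fact p.Prime] {G : Type} [Group G] (h : Ser2 p G) :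
    IsSimpleGroup G → Bas p G := by
  induction h with
  | bas G h => exact fun _ => h
  | ext G N h1 h2 i1 i2 =>
    intro hs
    rcases (inferInstance : N.Normal).eq_bot_or_eq_top with hk | hk
    · have e : G ≃* G ⧸ N := MulEquiv.ofBijective (QuotientGroup.mk' N)
        ⟨(MonoidHom.ker_eq_bot_iff _).1 (by rw [QuotientGroup.ker_mk', hk]),
          QuotientGroup.mk'_surjective N⟩
      exact (i2 e.symm.isSimpleGroup).congr e.symm
    · have e : N ≃* G := MulEquiv.ofBijective N.subtype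
        ⟨N.subtype_injective, fun x => ⟨⟨x, hk ▸ Subgroup.mem_top x⟩, rfl⟩⟩
      exact (i1 e.isSimpleGroup).congr e

theorem ser2_cls [Fact p.Prime] (hp2 : p ≠ 2) : Cls p (Ser2 p) where
  small := fun G _ h => .bas G (.inl (CycS.small h))
  alt := fun n => .bas _ (.inr (.inl ⟨n, ⟨MulEquiv.refl _⟩⟩))
  iso := fun _ _ _ _ e h => h.congr hp2 e
  ext := fun G _ _ N _ h1 h2 => .ext G N h1 h2

theorem ser2_good [hp : Fact p.Prime] (hp2 : p ≠ 2) {G : Type} [Group G] (h : Ser2 p G) :
    Good p (Ser2 p) G := by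
  have hC := ser2_cls hp2
  induction h with
  | bas G h =>
    rcases h with h | ⟨n, ⟨e⟩⟩ | ⟨K, _, _, _, ⟨e⟩⟩
    · exact fun H _ => .bas H (.inl (h.inj H.subtype H.subtype_injective))
    · exact Good.iso hC e.symm (Good.alt hp.out hp2 hC _)
    · refine Good.iso hC e.symm fun H hH => ?_
      rcases psl_sub hp.out K H hH with rfl | h1
      · exact .bas _ (.inr (.inr ⟨K, _, inferInstance, inferInstance, ⟨Subgroup.topEquiv⟩⟩))
      · exact hC.solv hp.out H
  | ext G N h1 h3 i1 i2 =>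
    have := (Ser2.ext G N h1 h3).finite
    exact Good.ext hC N i1 i2

theorem ser2_clo [Fact p.Prime] (hp2 : p ≠ 2) : Clo p (Ser2 p) where
  sub := fun _ _ h => ser2_good hp2 h
  nrm := fun _ _ _ _ h => h.nrm hp2
  quot := fun _ _ _ _ h => h.quot hp2

theorem ser2_chain [Fact p.Prime] (hp2 : p ≠ 2) {G : Type} [Group G] [Finite G] (n : ℕ)
    (s : ℕ → Subgroup G) (h0 : s 0 = ⊥) (hn : s n = ⊤)
    (h : ∀ i < n, s i ≤ s (i + 1) ∧ ∃ (H : Type) (_ : Group H) (f : s (i + 1) →* H),
      Surjective f ∧ f.ker = (s i).subgroupOf (s (i + 1)) ∧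
      ((∀ Q : Sylow p H, IsCyclic (Q : Subgroup H)) ∨
        (∃ m : ℕ, Nonempty (H ≃* alternatingGroup (Fin m))) ∨
        ∃ (K : Type) (_ : Field K) (_ : Finite K),
          Nonempty (H ≃* Matrix.ProjectiveSpecialLinearGroup (Fin 2) K))) : Ser2 p G := by
  have key : ∀ i ≤ n, Ser2 p (s i) := by
    intro i
    induction i with
    | zero =>
      intro _
      rw [h0]
      exact .bas _ (Bas.triv hp2)
    | succ i ih =>
      intro hi
      obtain ⟨h1, H, _, f, hf, hk, h3⟩ := h i hi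
      have h4 : Bas p H := by
        rcases h3 with h3 | h3 | ⟨K, _, _, ⟨e⟩⟩
        · exact .inl ⟨Finite.of_surjective f hf, h3⟩
        · exact .inr (.inl h3)
        · exact Bas.psl hp2 K e
      refine .ext _ f.ker ?_
        (.bas _ (h4.congr (QuotientGroup.quotientKerEquivOfSurjective f hf).symm))
      rw [hk]
      exact (ih (by omega)).congr hp2 (Subgroup.subgroupOfEquivOfLe h1).symm
  have h1 := key n le_rfl
  rw [hn] at h1
  exact h1.congr hp2 Subgroup.topEquiv

end Pool.Agent.Lib.MP_1ae3da_al.CT
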