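import Pool.Agent.Lib.MP_1ae3da_al.C.Comp
import Pool.Agent.Lib.MP_1ae3da_al.C2.Rt
import Pool.Agent.Lib.MP_1ae3da_al.C2.Ser
import Pool.Agent.Lib.MP_1ae3da_al.C2.Cov
import Pool.Agent.Lib.MP_1ae3da_al.S.A67

/-! The linked McKay bijection for alternating components and for components with a Sylow
subgroup of order `p`. -/

namespace Pool.Agent.Lib.MP_1ae3da_al.CT

open Submodule Pool.Agent.Lib.McK

variable {p : ℕ} {F k A : Type} [Field F] [Field k] [Ring A] [Algebra F A] {O R : Subring F}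
  {r : F → k} {GG : Subgroup (RingAut F)}

/-- Sylow subgroup of order `p`. -/
theorem comp2_sml (h : PM p O R r GG) (S : Type) [Group S] [Finite S]
    (hperf : commutator S = ⊤) (h1 : p ∣ Nat.card S) (h2 : ¬ p ^ 2 ∣ Nat.card S) {u : S → A}
    (hu : TG F u) (Q : Sylow p S) :
    ML F p GG (Hm F u ⊤) (Hm F u (Subgroup.normalizer (Q : Set S))) := by
  have : Fact p.Prime := ⟨h.prime⟩
  have := h.charF
  have := h.algF
  obtain ⟨X, _, _, π, hπ⟩ := exists_uce S hperf
  obtain ⟨T, hT, -⟩ := uce_syl π hπ.surj hπ.cent Q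
  have hN : (Subgroup.normalizer (Q : Set S)).comap π = Subgroup.normalizer (T : Set X) := by
    ext g
    rw [uce_norm π hπ.cent T g, hT]; rfl
  apply lf_ml hπ hu
  rw [hN]
  refine r5 h X hπ.perf (h1.trans (Subgroup.card_dvd_of_surjective π hπ.surj)) (fun h3 => h2 ?_) T
  refine (T.pow_dvd_card_of_pow_dvd_card h3).trans (Subgroup.card_dvd_of_injective
    (π.comp (T : Subgroup X).subtype) ((injective_iff_map_eq_one _).2 fun z hz => Subtype.ext ?_))
  exact cov_one hπ.perf π hπ.cent T (by rw [hT]; exact (CycS.small h2).2 Q) hz z.2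

/-- alternating groups of degree at least eight. -/
theorem comp2_alt (h : PM p O R r GG) (hp2 : p ≠ 2) (j : NSV.Qbar →+* F)
    (hj : ∀ σ ∈ GG, ∃ s ∈ NSV.H p, ∀ x, σ (j x) = j (s x)) (S : Type) [Group S] [Finite S]
    (hperf : commutator S = ⊤) (h1 : p ∣ Nat.card S) {n : ℕ} (hn : 8 ≤ n)
    (e : S ≃* alternatingGroup (Fin n)) {u : S → A} (hu : TG F u) (Q : Sylow p S) :
    ML F p GG (Hm F u ⊤) (Hm F u (Subgroup.normalizer (Q : Set S))) := by
  have hp := h.prime
  have : Fact p.Prime := ⟨hp⟩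
  have := h.charF
  have := h.algF
  obtain ⟨X, _, _, π, hπ⟩ := exists_uce S hperf
  obtain ⟨T, hT, -⟩ := uce_syl π hπ.surj hπ.cent Q
  have hN : (Subgroup.normalizer (Q : Set S)).comap π = Subgroup.normalizer (T : Set X) := by
    ext g
    rw [uce_norm π hπ.cent T g, hT]; rfl
  apply lf_ml hπ hu
  rw [hN]
  have hk : (e.toMonoidHom.comp π).ker = π.ker := by
    ext x
    simp [MonoidHom.mem_ker]
  obtain ⟨Y, _, _, f, f1, f2, f3, f4, -⟩ := cover_lift_of GM.A_hmod GM.A_haut n (by omega)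
  have hf : (e.symm.toMonoidHom.comp f).ker = f.ker := by
    ext x
    simp [MonoidHom.mem_ker]
  have hne : π.ker ≠ ⊥ := hπ.ker_ne_bot' f1 (e.symm.toMonoidHom.comp f)
    (e.symm.surjective.comp f2) (hf ▸ f3) (hf ▸ f4)
  have hpn : p ≤ n := by
    rw [Nat.card_congr e.toEquiv] at h1
    have h3 := h1.trans (Subgroup.card_subgroup_dvd_card _)
    rw [Nat.card_perm, Nat.card_eq_fintype_card, Fintype.card_fin] at h3
    exact hp.dvd_factorial.mp h3
  exact alt_link j hj X hπ.perf T (GM.thm1 n p hn hp hp2 hpn X (e.toMonoidHom.comp π)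
    hπ.perf (e.surjective.comp hπ.surj) (hk ▸ hπ.cent) (hk ▸ hne) T)

/-- alternating groups of order divisible by `p ^ 2`. -/
theorem comp2_big (h : PM p O R r GG) (hp2 : p ≠ 2) (j : NSV.Qbar →+* F)
    (hj : ∀ σ ∈ GG, ∃ s ∈ NSV.H p, ∀ x, σ (j x) = j (s x)) (S : Type) [Group S] [Finite S]
    (hperf : commutator S = ⊤) (h1 : p ^ 2 ∣ Nat.card S) {n : ℕ}
    (e : S ≃* alternatingGroup (Fin n)) {u : S → A} (hu : TG F u) (Q : Sylow p S) :
    ML F p GG (Hm F u ⊤) (Hm F u (Subgroup.normalizer (Q : Set S))) := by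
  have hp := h.prime
  by_cases hn : 8 ≤ n
  · exact comp2_alt h hp2 j hj S hperf ((dvd_pow_self p two_ne_zero).trans h1) hn e hu Q
  have h2 : ¬ n < 2 * p := fun h3 => cls_fact hp h3 (by
    rw [Nat.card_congr e.toEquiv] at h1
    have h5 := h1.trans (Subgroup.card_subgroup_dvd_card _)
    rwa [Nat.card_perm, Nat.card_eq_fintype_card, Fintype.card_fin] at h5)
  have h3 := hp.two_le
  exact a67_ml h (by omega) j hj n (by omega) S e hu Q

end Pool.Agent.Lib.MP_1ae3da_al.CT
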