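import Pool.Agent.Lib.MP_1ae3da_al.C.Fin
import Pool.Agent.Lib.MP_1ae3da_al.C2.CompA
import Pool.Agent.Lib.MP_1ae3da_al.C2.Ser3

/-! The Galois-McKay bijection for the class `Ser3 p`. -/

namespace Pool.Agent.Lib.MP_1ae3da_al.CT

open Pool.Agent.Lib.McK

theorem comp3 {p : ℕ} {F k A : Type} [Field F] [Field k] [Ring A] [Algebra F A] {O R : Subring F}
    {r : F → k} {GG : Subgroup (RingAut F)} (h : PM p O R r GG) (hp2 : p ≠ 2)
    (j : NSV.Qbar →+* F) (hj : ∀ σ ∈ GG, ∃ s ∈ NSV.H p, ∀ x, σ (j x) = j (s x)) :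
    InS2 p F A GG (Ser3 p) (fun _ _ Q => Q) := by
  intro S _ _ hs hperf h1 hS u hu Q
  have : Fact p.Prime := ⟨h.prime⟩
  by_cases h4 : p ^ 2 ∣ Nat.card S
  · rcases (hS.simple hs).cases hp2 with h2 | ⟨n, -, ⟨e⟩⟩ | ⟨K, _, _, _, hK, ⟨e⟩⟩
    · exact absurd h4 h2
    · exact comp2_big h hp2 j hj S hperf h4 e hu Q
    · exact psl_ml h hp2 j hj K hK S e hu Q
  · exact comp2_sml h S hperf h1 h4 hu Q

theorem final3 (p : ℕ) [hp : Fact p.Prime] (hp2 : p ≠ 2) (G : Type) [Group G] [Finite G]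
    (hG : Ser3 p G) (P : Sylow p G) :
    ∃ f : NSV.IrrP p G ≃ NSV.IrrP p (Subgroup.normalizer (P : Set G)),
      ∀ γ : MulAut G, (∀ x, γ x ∈ P ↔ x ∈ P) → ∀ σ ∈ NSV.H0 p, ∀ θ θ' : NSV.IrrP p G,
        (∀ x, θ'.1 x = σ (θ.1 (γ x))) → ∀ m m' : Subgroup.normalizer (P : Set G),
          (m' : G) = γ m → (f θ').1 m = σ ((f θ).1 m') := by
  obtain ⟨F, k, _, _, O, R, r, GG, j, h, h1, h2⟩ := exists_sys p hp.out
  have := h.charF
  have := h.algF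
  exact fin_of j h1 h2 G P (main2_ind (ser3_clo hp2)
    ⟨fun _ _ _ => le_rfl, fun _ _ _ _ _ a => a, fun _ _ _ _ _ _ _ => rfl⟩
    (fun G _ _ u hu L E _ a b c => b1 h hu L E a b c)
    (fun G I _ _ _ _ u hu S M a b c d e Γ f g i => b2 h.prime hu S M a b c d e Γ f g i)
    (comp3 h hp2 j h1) (Nat.card G + 1) G (Nat.lt_succ_self _) hG _ gu_tg P)

end Pool.Agent.Lib.MP_1ae3da_al.CT
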