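import Pool.Agent.Lib.MP_1ae3da_al.C.Main
import Pool.Agent.Lib.MP_1ae3da_al.C2.TR

/-! The induction on the group order for a closed class of groups, with a free choice of the
local subgroup of a component. -/

namespace Pool.Agent.Lib.MP_1ae3da_al.CT

open Submodule Pool.Agent.Lib.McK

/-- a natural choice of a non-trivial subgroup in every non-trivial finite `p`-group. -/
structure RtOk (p : ℕ) (Rt : ∀ (G : Type) [Group G], Subgroup G → Subgroup G) : Prop where
  le : ∀ (G : Type) [Group G] (Q : Subgroup G), Rt G Q ≤ Q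
  ne : ∀ (G : Type) [Group G] [Finite G] (Q : Subgroup G), IsPGroup p Q → Q ≠ ⊥ → Rt G Q ≠ ⊥
  map : ∀ (G H : Type) [Group G] [Group H] (f : G →* H), Function.Injective f →
    ∀ Q : Subgroup G, Rt H (Q.map f) = (Rt G Q).map f

variable {p : ℕ} {F A : Type} [Field F] [Ring A] [Algebra F A] {GG : Subgroup (RingAut F)}
  {C : ∀ (G : Type) [Group G], Prop} {Rt : ∀ (G : Type) [Group G], Subgroup G → Subgroup G}

variable (F A p GG C Rt) in
/-- the input for simple groups. -/
def InS2 : Prop := ∀ (S : Type) [Group S] [Finite S], IsSimpleGroup S → commutator S = ⊤ →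
  p ∣ Nat.card S → C S → ∀ u : S → A, TG F u → ∀ Q : Sylow p S,
    ML F p GG (Hm F u ⊤) (Hm F u (Subgroup.normalizer ((Rt S Q : Subgroup S) : Set S)))

theorem main2_conj {G : Type} [Group G] {H : Subgroup G} {g : G} :
    g ∈ Subgroup.normalizer (H : Set G) ↔ H.map (MulAut.conj g).toMonoidHom = H := by
  rw [Subgroup.mem_normalizer_iff]
  constructor
  · intro h
    ext x
    constructor
    · rintro ⟨y, hy, rfl⟩
      exact (h y).1 hy
    · intro hx
      exact ⟨g⁻¹ * x * g, (h _).2 (by simpa [mul_assoc] using hx), by simp [mul_assoc]⟩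
  · intro h x
    constructor
    · intro hx
      exact h.le ⟨x, hx, rfl⟩
    · intro hx
      obtain ⟨y, hy, e⟩ := h.ge hx
      rwa [← (MulAut.conj g).injective e]

theorem main2_inf {G I : Type} [Group G] [Fintype I] (S K : I → Subgroup G)
    (hc : ∀ i j, i ≠ j → ∀ x ∈ S i, ∀ y ∈ S j, x * y = y * x) (hi : iSupIndep S)
    (hK : ∀ i, K i ≤ S i) (i : I) : (⨆ j, K j) ⊓ S i = K i := by
  classical
  refine le_antisymm (fun x hx => ?_) (le_inf (le_iSup K i) (hK i))
  have hc' : Pairwise fun i j : I => ∀ x y : G, x ∈ S i → y ∈ S j → Commute x y :=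
    fun i j h x y hx hy => hc i j h x hx y hy
  have h := (prod_mem_iff (hc := hc') hi hK
    (Pi.mulSingle i ⟨x, hx.2⟩)).1 (by rw [Subgroup.noncommPiCoprod_mulSingle]; exact hx.1) i
  simpa using h

section
variable {G : Type} [Group G] [Finite G] {u : G → A}

/-- descent to a proper subgroup containing the normaliser. -/
theorem main2_down [Fact p.Prime] (hC : Clo p C) (hG : C G)
    (ih : IH2 F A p GG C (Nat.card G)) (hu : TG F u) (P : Sylow p G) (T : Subgroup G) (hT : T ≠ ⊤)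
    (hN : Subgroup.normalizer (P : Set G) ≤ T) :
    EB (SG GG A ⊓ Stb (Hm F u T) ⊓ Stb (Hm F u P)) (IrrP F p (Hm F u T))
      (IrrP F p (Hm F u (Subgroup.normalizer (P : Set G)))) := by
  have hPT : (P : Subgroup G) ≤ T := le_trans Subgroup.le_normalizer hN
  have hi : ¬ p ∣ T.index := fun h =>
    P.not_dvd_index (h.trans (Subgroup.index_dvd_of_le hPT))
  have hc : Nat.card T < Nat.card G := by
    have h1 := T.card_mul_index
    have h2 : T.index ≠ 1 := fun h => hT (Subgroup.index_eq_one.1 h)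
    have h3 : T.index ≠ 0 := Subgroup.index_ne_zero_of_finite
    have h4 : 0 < Nat.card T := Nat.card_pos
    have h5 : 2 ≤ T.index := by omega
    nlinarith
  have := ih T hc (hC.sub G hG T hi) (u ∘ T.subtype)
    (hu.comp T.subtype T.subtype_injective) (P.subtype hPT)
  unfold MN at this
  rw [Hm_comp, Hm_comp, Hm_comp] at this
  have e1 : (⊤ : Subgroup T).map T.subtype = T := by
    rw [← MonoidHom.range_eq_map, Subgroup.range_subtype]
  have e2 : ((P.subtype hPT : Sylow p T) : Subgroup T).map T.subtype = P := by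
    rw [Sylow.coe_subtype, Subgroup.subgroupOf_map_subtype, inf_eq_left.2 hPT]
  have e3 : (Subgroup.normalizer (((P.subtype hPT : Sylow p T) : Subgroup T) : Set T)).map
      T.subtype = Subgroup.normalizer (P : Set G) := by
    rw [Sylow.coe_subtype, main_norm T P hPT]
    exact inf_eq_left.2 hN
  rw [e1, e2, e3] at this
  exact this

/-- the step through a subgroup `T = N(D)` supplementing `L`. -/
theorem main2_step [IsAlgClosed F] [CharZero F] [Fact p.Prime] (hC : Clo p C) (hG : C G)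
    (ih : IH2 F A p GG C (Nat.card G)) (hu : TG F u) (P : Sylow p G) (L D : Subgroup G)
    [L.Characteristic] (hD : Subgroup.normalizer (D : Set G) ≠ ⊤)
    (hinv : ∀ φ : MulAut G, (P : Subgroup G).map φ.toMonoidHom = P → D.map φ.toMonoidHom = D)
    (hN : Subgroup.normalizer (P : Set G) ≤ Subgroup.normalizer (D : Set G))
    (hT : Subgroup.normalizer (P : Set G) ⊔ L = ⊤) {X : Set A} (hX : X ⊆ IrrP F p (Hm F u L))
    (hcov : ∀ f ∈ IrrP F p (Hm F u ⊤), ∀ e ∈ IrrP F p (Hm F u L), f * e ≠ 0 → e ∈ X)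
    (h : LK F (SG GG A ⊓ Stb (Hm F u ⊤) ⊓ Stb (Hm F u D)) (Hm F u L)
      (Hm F u (Subgroup.normalizer (D : Set G) ⊓ L)) X
      (IrrP F p (Hm F u (Subgroup.normalizer (D : Set G) ⊓ L)))) : MN F p GG u P := by
  have hTL : Subgroup.normalizer (D : Set G) ⊔ L = ⊤ :=
    eq_top_iff.2 (hT ▸ sup_le_sup_right hN L)
  have s1 : SG GG A ⊓ Stb (Hm F u ⊤) ⊓ Stb (Hm F u D) ≤
      Stb (Hm F u (Subgroup.normalizer (D : Set G))) :=
    stb_of_inv hu fun φ hφ => main_map_norm φ D hφ
  have s2 : SG GG A ⊓ Stb (Hm F u ⊤) ⊓ Stb (Hm F u P) ≤ Stb (Hm F u D) := stb_of_inv hu hinv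
  have s3 : SG GG A ⊓ Stb (Hm F u ⊤) ⊓ Stb (Hm F u P) ≤
      SG GG A ⊓ Stb (Hm F u ⊤) ⊓ Stb (Hm F u D) := le_inf inf_le_left s2
  have c := cons (GG := GG) (Fact.out : p.Prime) hu hTL
    (le_inf (le_inf inf_le_left s1) (inf_le_left.trans (stb_char hu L)))
    (fun x hx => by
      obtain ⟨a, ha⟩ := exists_ad hu x
      exact ⟨a, ⟨⟨ha.1.mem_SG, ha.2.1⟩, ha.stb hu hx⟩, ha⟩) hX hcov h
  exact (c.mono s3).trans ((main2_down hC hG ih hu P _ hD hN).mono
    (le_inf (le_inf (inf_le_left.trans inf_le_left) (s3.trans s1)) inf_le_right))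

end

theorem main2_ind [IsAlgClosed F] [CharZero F] [Fact p.Prime] (hC : Clo p C) (hR : RtOk p Rt)
    (h1 : InB1 p F A GG) (h2 : InB2 p F A GG) (h3 : InS2 p F A GG C Rt) (n : ℕ) : IH2 F A p GG C n := by
  induction n with
  | zero => intro G _ _ h; omega
  | succ n ihn =>
  intro G _ _ hn hG u hu P
  have ih : IH2 F A p GG C (Nat.card G) := fun G' _ _ h => ihn G' (by omega)
  by_cases hP : Subgroup.normalizer (P : Set G) = ⊤
  · unfold MN
    rw [show Subgroup.normalizer ((P : Subgroup G) : Set G) = ⊤ from hP]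
    exact EB.refl fun γ hγ x hx => (irrP_stb hγ.1.1 hγ.1.2).2 hx
  by_cases hL : ∃ L : Subgroup G, L.Characteristic ∧ L ≠ ⊥ ∧
      Subgroup.normalizer (P : Set G) ⊔ L ≠ ⊤
  · obtain ⟨L, hc, hb, hT⟩ := hL
    have a1 := r2 (GG := GG) hC hG ih hu P L hb
    have a2 := main2_down hC hG ih hu P _ hT le_sup_left
    have s1 : SG GG A ⊓ Stb (Hm F u ⊤) ⊓ Stb (Hm F u P) ≤
        Stb (Hm F u (Subgroup.normalizer (P : Set G) ⊔ L)) :=
      stb_of_inv hu fun φ hφ => by
        rw [Subgroup.map_sup, main_char φ L]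
        exact congrArg (· ⊔ L) (main_map_norm φ P hφ)
    exact (a1.mono (le_inf le_rfl (inf_le_left.trans (stb_char hu L)))).trans
      (a2.mono (le_inf (le_inf (inf_le_left.trans inf_le_left) s1) inf_le_right))
  have hL' : ∀ L : Subgroup G, L.Characteristic → L ≠ ⊥ →
      Subgroup.normalizer (P : Set G) ⊔ L = ⊤ := fun L a b => by
    by_contra c; exact hL ⟨L, a, b, c⟩
  have hop : ∀ N : Subgroup G, N.Normal → IsPGroup p N → N = ⊥ := fun N _ hN => gr_op P hP hL' N hN
  have hPb : (P : Subgroup G) ≠ ⊥ := fun h => hP (by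
    change Subgroup.normalizer ((P : Subgroup G) : Set G) = ⊤
    rw [h]; exact Subgroup.normalizer_eq_top _)
  by_cases hq : ∃ N : Subgroup G, N.Normal ∧ ¬ p ∣ Nat.card N ∧ N ≠ ⊥
  · obtain ⟨N, hN, hN1, hN2⟩ := hq
    obtain ⟨L, hc, hb, hp'⟩ := gr_opp Fact.out N hN2 hN1
    obtain ⟨E, e0, e1, e2, e3, e4, e5, e6, e7⟩ := gr_E P hPb L hp' (hL' L hc hb)
    have hE : Subgroup.normalizer (E : Set G) ≠ ⊤ := fun h =>
      e0 (hop E (Subgroup.normalizer_eq_top_iff.1 h) (P.isPGroup'.to_le e1))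
    refine main2_step hC hG ih hu P L E hE e4 e5 (hL' L hc hb)
      (X := {e | e ∈ IrrP F p (Hm F u L) ∧ E ≤ St u e}) (fun _ h => h.1) ?_ ?_
    · intro f hf e he h
      refine ⟨he, e7 _ ((le_inf_St hu le_top he.1).trans inf_le_right) ?_⟩
      have := (cl_under hu le_top (by rw [Subgroup.normalizer_eq_top]) he.1 hf h).2
      rwa [Subgroup.relIndex_top_right] at this
    · rw [e6]
      exact (h1 G u hu L E hp' e2 e3).mono
        (le_inf (le_inf inf_le_left (inf_le_left.trans (stb_char hu L))) inf_le_right)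
  have hq' : ∀ N : Subgroup G, N.Normal → ¬ p ∣ Nat.card N → N = ⊥ := fun N a b => by
    by_contra c; exact hq ⟨N, a, b, c⟩
  have : Nontrivial G := by
    by_contra hc
    rw [not_nontrivial_iff_subsingleton] at hc
    exact hPb (Subsingleton.elim _ _)
  obtain ⟨I, _, _, S, s1, s2, s3, s4, s5, s6⟩ := gr_soc hop hq'
  obtain ⟨q1, -⟩ := gr_syl S s5 s6 P
  obtain ⟨i0⟩ := ‹Nonempty I›
  have hLb : (⨆ i, S i) ≠ ⊥ := fun h => by
    have : S i0 = ⊥ := eq_bot_iff.2 (h ▸ le_iSup S i0)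
    have h0 := (s4 i0).2.2.1
    rw [this, Subgroup.card_bot, Nat.dvd_one] at h0
    exact (Fact.out : p.Prime).ne_one h0
  let K : I → Subgroup G := fun i => Rt G ((P : Subgroup G) ⊓ S i)
  have k1 : ∀ i, K i ≤ S i := fun i => (hR.le _ _).trans inf_le_right
  have k2 : (⨆ i, K i) ≤ P := iSup_le fun i => (hR.le _ _).trans inf_le_left
  have k3 : ∀ i, (⨆ j, K j) ⊓ S i = K i := main2_inf S K s5 s6 k1
  have hQb : (⨆ i, K i) ≠ ⊥ := fun h => by
    obtain ⟨Q, hQ⟩ := q1 i0
    have h0 : (P : Subgroup G) ⊓ S i0 = ⊥ := by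
      by_contra h1
      exact hR.ne G _ (P.isPGroup'.to_le inf_le_left) h1 (eq_bot_iff.2 (h ▸ le_iSup K i0))
    rw [h0, Subgroup.map_eq_bot_iff_of_injective _ (S i0).subtype_injective] at hQ
    have := Q.not_dvd_index
    rw [hQ, Subgroup.index_bot] at this
    exact this (s4 i0).2.2.1
  have hinv : ∀ φ : MulAut G, (P : Subgroup G).map φ.toMonoidHom = P →
      (⨆ i, K i).map φ.toMonoidHom = ⨆ i, K i := fun φ h => by
    refine Subgroup.eq_of_le_of_card_ge ?_
      (Nat.card_congr (Subgroup.equivMapOfInjective _ _ φ.injective).toEquiv).le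
    rw [Subgroup.map_iSup]
    refine iSup_le fun i => ?_
    obtain ⟨j, hj⟩ := s2 φ i
    refine le_iSup_of_le j (le_of_eq ?_)
    rw [← hR.map _ _ φ.toMonoidHom φ.injective, main_map_inf, h, hj]
  refine main2_step hC hG ih hu P (⨆ i, S i) (⨆ i, K i)
    (fun h => hQb (hop _ (Subgroup.normalizer_eq_top_iff.1 h) (P.isPGroup'.to_le k2)))
    hinv (fun g hg => main2_conj.2 (hinv _ (main2_conj.1 hg))) (hL' _ s3 hLb) le_rfl
    (fun _ _ _ h _ => h) ?_
  rw [normalizer_iSup_eq (hc := fun i j h x y hx hy => s5 i j h x hx y hy) k1 k3]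
  refine h2 G I u hu S _ (fun i => inf_le_right) s1 (fun i => (s4 i).2.1) s5 s6 _
    (inf_le_left.trans inf_le_left) ?_ fun i => ?_
  · rintro γ ⟨⟨⟨σ, -, hσ⟩, g1⟩, g2⟩ i
    obtain ⟨φ, hφ⟩ := exists_aut hu hσ g1
    obtain ⟨j, hj⟩ := s2 φ i
    have g3 := (stb_Hm hu hσ hφ _).1 g2
    refine ⟨j, by rw [image_Hm hσ hφ, hj], ?_⟩
    rw [image_Hm hσ hφ, main_map_inf, hj, Subgroup.map_equiv_normalizer_eq, ← k3 i, main_map_inf,
      g3, hj, k3 j]
  · obtain ⟨Q, hQ⟩ := q1 i
    have hn := (s4 i).2.2.2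
    have hS : C (S i) := hC.nrm _ _ (hC.nrm G _ hG (⨆ i, S i).subtype (Subgroup.subtype_injective _)
      (by rw [Subgroup.range_subtype]; infer_instance)) (Subgroup.inclusion (le_iSup S i))
      (Subgroup.inclusion_injective _) (by rwa [Subgroup.inclusion_range])
    have := h3 (S i) (s4 i).1 (s4 i).2.1 (s4 i).2.2.1 hS (u ∘ (S i).subtype)
      (hu.comp _ (S i).subtype_injective) Q
    rw [Hm_comp, Hm_comp, ← MonoidHom.range_eq_map, Subgroup.range_subtype] at this
    have e : Rt (S i) Q = (K i).subgroupOf (S i) := by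
      simp only [K]
      rw [← hQ, hR.map _ _ _ (S i).subtype_injective, Subgroup.subgroupOf,
        Subgroup.comap_map_eq_self_of_injective (S i).subtype_injective]
    rw [e, main_norm (S i) _ (k1 i)] at this
    exact this

end Pool.Agent.Lib.MP_1ae3da_al.CT
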