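import Pool.Agent.Lib.MP_1ae3da_al.C2.Bo4

/-! The induction on the group order, with an equivariant choice of the local subgroup of a
component. -/

namespace Pool.Agent.Lib.MP_1ae3da_al.CT

open Submodule Pool.Agent.Lib.McK

variable {p : ℕ} {F A : Type} [Field F] [Ring A] [Algebra F A] {GG : Subgroup (RingAut F)}
  {C : ∀ (G : Type) [Group G], Prop}

variable (p F A GG) in
/-- `M` is a proper self-normalising subgroup with linked bijections for all twisted group
algebras. -/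
def Lf3 (S : Type) [Group S] (M : Subgroup S) : Prop :=
  Subgroup.normalizer (M : Set S) ≤ M ∧ M ≠ ⊤ ∧
    ∀ u : S → A, TG F u → ML F p GG (Hm F u ⊤) (Hm F u M)

variable (p F A GG) in
/-- a good local subgroup attached to a Sylow subgroup. -/
def Leaf3 (S : Type) [Group S] : Prop :=
  ∃ (R : Sylow p S) (M : Subgroup S),
    (∀ γ : MulAut S, (∀ x, γ x ∈ R ↔ x ∈ R) → ∀ x, γ x ∈ M ↔ x ∈ M) ∧ Lf3 p F A GG S M

variable (p F A GG C) in
/-- the input for simple groups. -/
def InS3 : Prop := ∀ (S : Type) [Group S] [Finite S], IsSimpleGroup S → commutator S = ⊤ →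
  p ∣ Nat.card S → C S → Leaf3 p F A GG S

theorem Lf3.map {X Y : Type} [Group X] [Group Y] {M : Subgroup X} (h : Lf3 p F A GG X M)
    (e : X ≃* Y) : Lf3 p F A GG Y (M.map e.toMonoidHom) := by
  refine ⟨?_, fun k => h.2.1 (eq_top_iff.2 fun x _ => ((bo_map e).1 k x).1 trivial),
    fun u hu => ?_⟩
  · rw [← Subgroup.map_equiv_normalizer_eq]
    exact Subgroup.map_mono h.1
  · have := h.2.2 (u ∘ e.toMonoidHom) (hu.comp _ e.injective)
    rwa [Hm_comp, Hm_comp, Subgroup.map_top_of_surjective _ e.surjective] at this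

theorem Leaf3.congr [Fact p.Prime] {X Y : Type} [Group X] [Group Y] [Finite X]
    (h : Leaf3 p F A GG X) (e : X ≃* Y) : Leaf3 p F A GG Y := by
  obtain ⟨R, M, h1, h2⟩ := h
  have k (x : X) : e x ∈ R.mapSurjective (f := e.toMonoidHom) e.surjective ↔ x ∈ R :=
    (bo_map (A := (R : Subgroup X)) e).1 rfl x
  refine ⟨R.mapSurjective (f := e.toMonoidHom) e.surjective, _, fun γ hγ y => ?_, h2.map e⟩
  rw [Subgroup.mem_map_equiv, Subgroup.mem_map_equiv,
    ← h1 ((e.trans γ).trans e.symm) (fun x => by rw [← k, ← k, ← hγ (e x)]; simp) (e.symm y)]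
  simp

/-- the normaliser of a subgroup that is stable under the automorphisms fixing `R`. -/
theorem leaf3_of [Fact p.Prime] {S : Type} [Group S] [Finite S] [IsSimpleGroup S]
    (hS : commutator S = ⊤) (R : Sylow p S) (D : Subgroup S) (hD : D ≤ R) (h0 : D ≠ ⊥)
    (hst : ∀ γ : MulAut S, (∀ x, γ x ∈ R ↔ x ∈ R) → ∀ x, γ x ∈ D ↔ x ∈ D)
    (h : ∀ u : S → A, TG F u →
      ML F p GG (Hm F u ⊤) (Hm F u (Subgroup.normalizer (D : Set S)))) : Leaf3 p F A GG S := by
  have hN : Subgroup.normalizer (R : Set S) ≤ Subgroup.normalizer (D : Set S) := fun g hg =>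
    Subgroup.mem_normalizer_iff.2 fun x => (hst (MulAut.conj g)
      (fun y => (Subgroup.mem_normalizer_iff.1 hg y).symm) x).symm
  refine ⟨R, _, fun γ k => (bo_map γ).1 (main_map_norm γ D ((bo_map γ).2 (hst γ k))), ?_,
    fun k => ?_, h⟩
  · intro g hg
    have hR : (R : Subgroup S) ≤ Subgroup.normalizer (D : Set S) := Subgroup.le_normalizer.trans hN
    have hR' : ((g • R : Sylow p S) : Subgroup S) ≤ Subgroup.normalizer (D : Set S) := by
      rintro _ ⟨y, hy, rfl⟩
      exact (Subgroup.mem_normalizer_iff.1 hg y).1 (hR hy)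
    obtain ⟨n, hn⟩ := MulAction.exists_smul_eq (Subgroup.normalizer (D : Set S))
      ((g • R).subtype hR') (R.subtype hR)
    rw [Sylow.smul_subtype] at hn
    have e : ((n : S) * g) • R = R := (mul_smul _ _ _).trans (Sylow.subtype_injective hn)
    exact (Subgroup.mul_mem_cancel_left _ n.2).1 (hN (Sylow.smul_eq_iff_mem_normalizer.1 e))
  · rcases (Subgroup.normalizer_eq_top_iff.1 k).eq_bot_or_eq_top with e | e
    · exact h0 e
    · have hp : IsPGroup p S := (R.isPGroup'.to_le (e ▸ hD)).of_equiv Subgroup.topEquiv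
      have := hp.isNilpotent
      exact (Group.IsSolvable.commutator_lt_top_of_nontrivial S).ne hS

theorem InS2.three [Fact p.Prime] {Rt : ∀ (G : Type) [Group G], Subgroup G → Subgroup G}
    (hR : RtOk p Rt) (h : InS2 p F A GG C Rt) : InS3 p F A GG C := by
  intro S _ _ hs hperf h1 hS
  let Q : Sylow p S := default
  refine leaf3_of hperf Q (Rt S Q) (hR.le _ _) (hR.ne S _ Q.isPGroup' (Q.ne_bot_of_dvd_card h1))
    (fun γ k => (bo_map γ).1 ?_) fun u hu => h S hs hperf h1 hS u hu Q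
  rw [← hR.map _ _ γ.toMonoidHom γ.injective, (bo_map (A := Q) (B := Q) γ).2 k]

theorem main3_ind [IsAlgClosed F] [CharZero F] [Fact p.Prime] (hC : Clo p C)
    (h1 : InB1 p F A GG) (h2 : InB2 p F A GG) (h3 : InS3 p F A GG C) (n : ℕ) :
    IH2 F A p GG C n := by
  induction n with
  | zero => intro G _ _ h; omega
  | succ n ihn =>
  intro G _ _ hn hG u hu P
  have ih : IH2 F A p GG C (Nat.card G) := fun G' _ _ h => ihn G' (by omega)
  by_cases hP : Subgroup.normalizer (P : Set G) = ⊤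
  · unfold MN
    rw [show Subgroup.normalizer ((P : Subgroup G) : Set G) = ⊤ from hP]
    exact EB.refl fun γ hγ x hx => (irrP_stb hγ.1.1 hγ.1.2).2 hx
  by_cases hL : ∃ L : Subgroup G, L.Characteristic ∧ L ≠ ⊥ ∧
      Subgroup.normalizer (P : Set G) ⊔ L ≠ ⊤
  · obtain ⟨L, hc, hb, hT⟩ := hL
    have a1 := r2 (GG := GG) hC hG ih hu P L hb
    have a2 := main2_down hC hG ih hu P _ hT le_sup_left
    have s1 : SG GG A ⊓ Stb (Hm F u ⊤) ⊓ Stb (Hm F u P) ≤
        Stb (Hm F u (Subgroup.normalizer (P : Set G) ⊔ L)) :=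
      stb_of_inv hu fun φ hφ => by
        rw [Subgroup.map_sup, main_char φ L]
        exact congrArg (· ⊔ L) (main_map_norm φ P hφ)
    exact (a1.mono (le_inf le_rfl (inf_le_left.trans (stb_char hu L)))).trans
      (a2.mono (le_inf (le_inf (inf_le_left.trans inf_le_left) s1) inf_le_right))
  have hL' : ∀ L : Subgroup G, L.Characteristic → L ≠ ⊥ →
      Subgroup.normalizer (P : Set G) ⊔ L = ⊤ := fun L a b => by
    by_contra c; exact hL ⟨L, a, b, c⟩
  have hop : ∀ N : Subgroup G, N.Normal → IsPGroup p N → N = ⊥ := fun N _ hN => gr_op P hP hL' N hN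
  have hPb : (P : Subgroup G) ≠ ⊥ := fun h => hP (by
    change Subgroup.normalizer ((P : Subgroup G) : Set G) = ⊤
    rw [h]; exact Subgroup.normalizer_eq_top _)
  by_cases hq : ∃ N : Subgroup G, N.Normal ∧ ¬ p ∣ Nat.card N ∧ N ≠ ⊥
  · obtain ⟨N, hN, hN1, hN2⟩ := hq
    obtain ⟨L, hc, hb, hp'⟩ := gr_opp Fact.out N hN2 hN1
    obtain ⟨E, e0, e1, e2, e3, e4, e5, e6, e7⟩ := gr_E P hPb L hp' (hL' L hc hb)
    have hE : Subgroup.normalizer (E : Set G) ≠ ⊤ := fun h =>
      e0 (hop E (Subgroup.normalizer_eq_top_iff.1 h) (P.isPGroup'.to_le e1))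
    refine main2_step hC hG ih hu P L E hE e4 e5 (hL' L hc hb)
      (X := {e | e ∈ IrrP F p (Hm F u L) ∧ E ≤ St u e}) (fun _ h => h.1) ?_ ?_
    · intro f hf e he h
      refine ⟨he, e7 _ ((le_inf_St hu le_top he.1).trans inf_le_right) ?_⟩
      have := (cl_under hu le_top (by rw [Subgroup.normalizer_eq_top]) he.1 hf h).2
      rwa [Subgroup.relIndex_top_right] at this
    · rw [e6]
      exact (h1 G u hu L E hp' e2 e3).mono
        (le_inf (le_inf inf_le_left (inf_le_left.trans (stb_char hu L))) inf_le_right)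
  have hq' : ∀ N : Subgroup G, N.Normal → ¬ p ∣ Nat.card N → N = ⊥ := fun N a b => by
    by_contra c; exact hq ⟨N, a, b, c⟩
  have : Nontrivial G := by
    by_contra hc
    rw [not_nontrivial_iff_subsingleton] at hc
    exact hPb (Subsingleton.elim _ _)
  obtain ⟨I, _, _, S, s1, s2, s3, s4, s5, s6⟩ := gr_soc hop hq'
  choose Q hQ using grb_sylow S s5 P
  have hQ' (i) (x : S i) : x ∈ Q i ↔ (x : G) ∈ P := by
    rw [← SetLike.mem_coe, ← Sylow.coe_coe, hQ]; rfl
  obtain ⟨M, hM, hnat⟩ := nat_choice (Lf3 p F A GG) (fun _ _ _ _ _ e h => h.map e)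
    (fun i => S i) Q fun i => h3 (S i) (s4 i).1 (s4 i).2.1 (s4 i).2.2.1
      (hC.nrm _ _ (hC.nrm G _ hG (⨆ i, S i).subtype (Subgroup.subtype_injective _)
        (by rw [Subgroup.range_subtype]; infer_instance)) (Subgroup.inclusion (le_iSup S i))
        (Subgroup.inclusion_injective _) (by rw [Subgroup.inclusion_range]; exact (s4 i).2.2.2))
  obtain ⟨i0⟩ := ‹Nonempty I›
  have hLb : (⨆ i, S i) ≠ ⊥ := fun h => by
    have : S i0 = ⊥ := eq_bot_iff.2 (h ▸ le_iSup S i0)
    have h0 := (s4 i0).2.2.1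
    rw [this, Subgroup.card_bot, Nat.dvd_one] at h0
    exact (Fact.out : p.Prime).ne_one h0
  let K : I → Subgroup G := fun i => (M i).map (S i).subtype
  have hm (i) (x : S i) : (x : G) ∈ K i ↔ x ∈ M i :=
    Subgroup.mem_map_iff_mem (S i).subtype_injective
  have k1 : ∀ i, K i ≤ S i := fun i => Subgroup.map_subtype_le _
  have k3 : ∀ i, (⨆ j, K j) ⊓ S i = K i := main2_inf S K s5 s6 k1
  have k4 : Subgroup.normalizer ((⨆ i, K i : Subgroup G) : Set G) ⊓ ⨆ i, S i = ⨆ i, K i := by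
    rw [normalizer_iSup_eq (hc := fun i j h x y hx hy => s5 i j h x hx y hy) k1 k3]
    refine iSup_congr fun i => le_antisymm (fun x hx => ?_) (le_inf Subgroup.le_normalizer (k1 i))
    exact (hm i ⟨x, hx.2⟩).2 ((hM i).1 (Subgroup.mem_normalizer_iff.2 fun z => by
      rw [← hm, ← hm]; exact Subgroup.mem_normalizer_iff.1 hx.1 z))
  have hinv : ∀ φ : MulAut G, (P : Subgroup G).map φ.toMonoidHom = P →
      (⨆ i, K i).map φ.toMonoidHom = ⨆ i, K i := fun φ h => by
    refine Subgroup.eq_of_le_of_card_ge ?_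
      (Nat.card_congr (Subgroup.equivMapOfInjective _ _ φ.injective).toEquiv).le
    rw [Subgroup.map_iSup]
    refine iSup_le fun i => ?_
    obtain ⟨j, hj⟩ := s2 φ i
    refine le_iSup_of_le j ?_
    rintro _ ⟨_, ⟨x, hx, rfl⟩, rfl⟩
    exact (hm j (resI φ ((bo_map φ).1 hj) x)).2 ((hnat i j _ (fun y => by
      rw [hQ', hQ']; exact (bo_map (A := P) (B := P) φ).1 h y) x).2 hx)
  refine main2_step hC hG ih hu P (⨆ i, S i) (⨆ i, K i)
    (fun h => (hM i0).2.1 (eq_top_iff.2 fun x _ => (hm i0 x).1 ?_))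
    hinv (fun g hg => main2_conj.2 (hinv _ (main2_conj.1 hg))) (hL' _ s3 hLb) le_rfl
    (fun _ _ _ h _ => h) ?_
  · rw [← k3, ← k4, h]
    exact ⟨⟨trivial, Subgroup.mem_iSup_of_mem i0 x.2⟩, x.2⟩
  rw [k4]
  refine h2 G I u hu S K k1 s1 (fun i => (s4 i).2.1) s5 s6 _
    (inf_le_left.trans inf_le_left) ?_ fun i => ?_
  · rintro γ ⟨⟨⟨σ, -, hσ⟩, g1⟩, g2⟩ i
    obtain ⟨φ, hφ⟩ := exists_aut hu hσ g1
    obtain ⟨j, hj⟩ := s2 φ i
    have g3 := (stb_Hm hu hσ hφ _).1 g2
    refine ⟨j, by rw [image_Hm hσ hφ, hj], ?_⟩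
    rw [image_Hm hσ hφ, ← k3 i, main_map_inf, g3, hj, k3 j]
  · have := (hM i).2.2 (u ∘ (S i).subtype) (hu.comp _ (S i).subtype_injective)
    rwa [Hm_comp, Hm_comp, ← MonoidHom.range_eq_map, Subgroup.range_subtype] at this

end Pool.Agent.Lib.MP_1ae3da_al.CT
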